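import Pool.Agent.Lib.MP_743898_gtN.Ex0

set_option autoImplicit false

/-! A box cover of the parameters of modulus at most 13/5. -/

namespace Pool.Agent.Lib.MP_743898_gtN

open Pool.Agent.Lib.MP_743898_gt Pool.Agent.Lib.MP_743898_gt.Cl M2 Complex

theorem W3.sc {c u : ℂ} {X : M2} (h : W3 c X) (hu : u ≠ 0) : W3 c (sc u X) :=
  W3.of_sc (u := u⁻¹) (by rwa [sc_sc, inv_mul_cancel₀ hu, sc_one])

theorem shimizu {c : ℂ} (hd : IsDiscrete (ext3 c : Set PSL)) {X : M2} (h : W3 c X)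
    (hn : ‖X.c‖ ^ 2 < ‖det X‖) : X.c = 0 := by
  by_contra h0
  have mem : ∀ (A : SL) (t : ℂ) (Y : M2), W3 c Y → toM A = sc t Y → toM A ∈ lifts (ext3 c) :=
    fun A t Y hY e => ⟨A, ⟨A, hY.2 A t e, rfl⟩, rfl⟩
  obtain ⟨A, t, hA⟩ := exists_sl h.1
  obtain ⟨T, hT⟩ := exists_lift (X := tl 1) (by simp [det, tl])
  have w1 : W3 c (tl 1) := by simpa [adj_tl] using (w3_t c).adj
  have m1 := mem T 1 _ w1 (by rw [sc_one, hT])
  rw [hT] at m1
  have n1 := norm_sc hA
  have t0 := norm_pos_iff.2 (sc_ne hA)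
  refine (good_of_discrete _ hd).jorg_par 1 1 m1 _ (mem A t X h hA) ?_ ?_
  · rw [hA]; simpa [M2.sc] using ⟨sc_ne hA, h0⟩
  · rw [hA, one_mul]
    change ‖t * X.c‖ < 1
    rw [norm_mul]
    have p0 : 0 ≤ ‖t‖ * ‖X.c‖ := by positivity
    have := mul_lt_mul_of_pos_left hn (pow_pos t0 2)
    nlinarith

/-- Gaussian integers as pairs -/
noncomputable def ge (z : ℤ × ℤ) : ℂ := z.1 + z.2 * I
def gm (a b : ℤ × ℤ) : ℤ × ℤ := (a.1 * b.1 - a.2 * b.2, a.1 * b.2 + a.2 * b.1)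
def ga (a b : ℤ × ℤ) : ℤ × ℤ := (a.1 + b.1, a.2 + b.2)
def l1 (z : ℤ × ℤ) : ℤ := (z.1.natAbs : ℤ) + (z.2.natAbs : ℤ)
def nq (z : ℤ × ℤ) : ℤ := z.1 * z.1 + z.2 * z.2
def nw (N u : ℤ) : ℤ := (u + N / u) / 2 + 1
def up (z : ℤ × ℤ) : ℤ :=
  let u := nw (nq z) (nw (nq z) (nw (nq z) (nw (nq z) (nw (nq z) (l1 z + 1)))))
  if nq z ≤ u * u ∧ 0 ≤ u then u else l1 z
def lo (z : ℤ × ℤ) : ℤ :=
  let l := nq z / (up z + 1)
  if l * l ≤ nq z then l else 0

theorem ge_mul (a b : ℤ × ℤ) : ge (gm a b) = ge a * ge b := by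
  simp only [ge, gm]; push_cast; linear_combination (-(a.2 * b.2 : ℂ)) * I_mul_I
theorem ge_add (a b : ℤ × ℤ) : ge (ga a b) = ge a + ge b := by
  simp only [ge, ga]; push_cast; ring
theorem ge_nq (z : ℤ × ℤ) : ‖ge z‖ ^ 2 = nq z := by
  rw [← normSq_eq_norm_sq, normSq_apply]; simp [ge, nq]
theorem le_l1 (z : ℤ × ℤ) : ‖ge z‖ ≤ l1 z := by
  refine (norm_le_abs_re_add_abs_im _).trans (le_of_eq ?_)
  simp [ge, l1]
theorem le_up (z : ℤ × ℤ) : ‖ge z‖ ≤ up z := by
  unfold up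
  simp only
  split_ifs with h
  · refine (abs_le_of_sq_le_sq' ?_ (by exact_mod_cast h.2)).2
    rw [ge_nq, sq]; exact_mod_cast h.1
  · exact le_l1 z
theorem lo_le (z : ℤ × ℤ) : (lo z : ℝ) ≤ ‖ge z‖ := by
  unfold lo
  simp only
  split_ifs with h
  · refine (abs_le_of_sq_le_sq' ?_ (norm_nonneg _)).2
    rw [ge_nq, sq]; exact_mod_cast h
  · simp

/-- value, derivative, error bound -/
structure Bl where
  v : ℤ × ℤ
  d : ℤ × ℤ
  e : ℤ

def Bl.ok (b : Bl) (Δ f : ℂ) : Prop := ‖f - ge b.v - ge b.d * Δ‖ ≤ b.e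

def run (C : ℤ × ℤ) (R U : ℤ) : List (ℤ × ℤ) → Bl → Bl → Bl
  | [], _, q => q
  | l :: w, a, q =>
    let v := ga a.v (gm l q.v)
    let d := ga a.d (gm l q.d)
    run C R U w ⟨gm (4096, 0) q.v, gm (4096, 0) q.d, 4096 * q.e⟩
      ⟨gm C v, ga (gm C d) v, l1 d * R * R + (U + R) * (a.e + l1 l * q.e)⟩

/-- words -/
noncomputable def wm (H : M2) : List (ℤ × ℤ) → M2 → M2
  | [], X => X
  | l :: w, X => wm H w (H * tl (ge l) * X)

theorem run_ok {C : ℤ × ℤ} {R U : ℤ} {Δ : ℂ} (hR : ‖Δ‖ ≤ R) (hU : ‖ge C‖ ≤ U)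
    (w : List (ℤ × ℤ)) : ∀ (a q : Bl) (X : M2), a.ok Δ X.a → q.ok Δ X.c →
      (run C R U w a q).ok Δ (wm ⟨0, 4096, ge C + Δ, 0⟩ w X).c := by
  induction w with
  | nil => exact fun a q X _ h => h
  | cons l w ih =>
    intro a q X ha hq
    refine ih _ _ _ ?_ ?_
    · have e : ge (4096, 0) = 4096 := by simp [ge]
      simp only [Bl.ok, ge_mul, e] at hq ⊢
      have : (⟨0, 4096, ge C + Δ, 0⟩ * tl (ge l) * X : M2).a - 4096 * ge q.v - 4096 * ge q.d * Δ =
          4096 * (X.c - ge q.v - ge q.d * Δ) := by simp [tl]; ring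
      rw [this, norm_mul]
      simp only [Complex.norm_ofNat]
      push_cast
      linarith
    · simp only [Bl.ok, ge_mul, ge_add] at ha hq ⊢
      have e : (⟨0, 4096, ge C + Δ, 0⟩ * tl (ge l) * X : M2).c - ge C * (ge a.v + ge l * ge q.v) -
          (ge C * (ge a.d + ge l * ge q.d) + (ge a.v + ge l * ge q.v)) * Δ =
          ge (ga a.d (gm l q.d)) * Δ * Δ + (ge C + Δ) * ((X.a - ge a.v - ge a.d * Δ) +
            ge l * (X.c - ge q.v - ge q.d * Δ)) := by
        simp [tl, ge_mul, ge_add]; ring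
      rw [e]
      push_cast
      have d0 := norm_nonneg Δ
      refine (norm_add_le _ _).trans (add_le_add ?_ ?_)
      · rw [norm_mul, norm_mul]
        exact mul_le_mul (mul_le_mul (le_l1 _) hR d0 ((norm_nonneg _).trans (le_l1 _))) hR d0
          (mul_nonneg ((norm_nonneg _).trans (le_l1 _)) (d0.trans hR))
      · rw [norm_mul]
        refine mul_le_mul ((norm_add_le _ _).trans (add_le_add hU hR))
          ((norm_add_le _ _).trans (add_le_add ha ?_)) (norm_nonneg _)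
          (by linarith [norm_nonneg (ge C)])
        rw [norm_mul]
        exact mul_le_mul (le_l1 l) hq (norm_nonneg _) ((norm_nonneg _).trans (le_l1 l))

theorem wm_w3 {c : ℂ} {H : M2} (hH : W3 c H) (w : List (ℤ × ℤ)) :
    ∀ X, W3 c X → W3 c (wm H w X) := by
  induction w with
  | nil => exact fun X h => h
  | cons l w ih =>
    exact fun X h => ih _ ((hH.mul (PP.w3 c ⟨0, l.1, l.2, by norm_num, by simp [tl, ge]⟩)).mul h)

theorem wm_det (H : M2) (w : List (ℤ × ℤ)) :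
    ∀ X, ‖det (wm H w X)‖ = ‖det H‖ ^ w.length * ‖det X‖ := by
  induction w with
  | nil => intro X; simp [wm]
  | cons l w ih =>
    intro X
    have : det (tl (ge l)) = 1 := by simp [det, tl]
    rw [wm, ih, det_mul, det_mul, this, mul_one, norm_mul, List.length_cons, pow_succ, mul_assoc]

theorem wm_sc (H : M2) (u : ℂ) (w : List (ℤ × ℤ)) :
    ∀ (v : ℂ) (X : M2), wm (sc u H) w (sc v X) = sc (u ^ w.length * v) (wm H w X) := by
  induction w with
  | nil => intro v X; simp [wm]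
  | cons l w ih =>
    intro v X
    rw [wm, wm, sc_mul, sc_mul, mul_sc, sc_sc, ih, List.length_cons, pow_succ, mul_assoc]

def test (C : ℤ × ℤ) (R : ℤ) (w : List (ℤ × ℤ)) (zero : Bool) : Bool :=
  let q := run C R (up C) w ⟨(0, 0), (0, 0), 0⟩ ⟨C, (1, 0), 0⟩
  let E := up q.d * R + q.e
  decide (0 < lo C - R) && decide ((up q.v + E) ^ 2 < ((lo C - R) * 4096) ^ (w.length + 1)) &&
    (zero || decide (E < lo q.v))

theorem test_ok {c : ℂ} (h0 : c ≠ 0) (hd : IsDiscrete (ext3 c : Set PSL)) {C : ℤ × ℤ} {R : ℤ}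
    (hR : ‖4096 * c - ge C‖ ≤ R) {w : List (ℤ × ℤ)} {zero : Bool} (h : test C R w zero = true) :
    zero = true ∧ (wm ⟨0, 1, c, 0⟩ w ⟨0, 1, c, 0⟩).c = 0 := by
  simp only [test, Bool.and_eq_true, decide_eq_true_eq, Bool.or_eq_true] at h
  obtain ⟨⟨h1, h2⟩, h3⟩ := h
  obtain ⟨Δ, hΔ⟩ : ∃ Δ, Δ = 4096 * c - ge C := ⟨_, rfl⟩
  rw [← hΔ] at hR
  have eH : (⟨0, 4096, ge C + Δ, 0⟩ : M2) = sc 4096 ⟨0, 1, c, 0⟩ := by
    ext <;> simp [M2.sc, hΔ]
  have hH : W3 c ⟨0, 4096, ge C + Δ, 0⟩ := eH ▸ (w3_h h0).sc (by norm_num)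
  have ok := run_ok hR (le_up C) w ⟨(0, 0), (0, 0), 0⟩ ⟨C, (1, 0), 0⟩ ⟨0, 4096, ge C + Δ, 0⟩
    (by simp [Bl.ok, ge]) (by simp [Bl.ok, ge])
  have dt := wm_det ⟨0, 4096, ge C + Δ, 0⟩ w ⟨0, 4096, ge C + Δ, 0⟩
  have w3 := wm_w3 hH w _ hH
  have sc' := wm_sc ⟨0, 1, c, 0⟩ 4096 w 4096 ⟨0, 1, c, 0⟩
  rw [← eH] at sc'
  generalize run C R (up C) w ⟨(0, 0), (0, 0), 0⟩ ⟨C, (1, 0), 0⟩ = q at *
  generalize wm ⟨0, 4096, ge C + Δ, 0⟩ w ⟨0, 4096, ge C + Δ, 0⟩ = X at *
  have b1 : ‖X.c - ge q.v‖ ≤ up q.d * R + q.e := by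
    have : X.c - ge q.v = ge q.d * Δ + (X.c - ge q.v - ge q.d * Δ) := by ring
    rw [this]
    refine (norm_add_le _ _).trans (add_le_add ?_ ok)
    rw [norm_mul]
    exact mul_le_mul (le_up _) hR (norm_nonneg _) ((norm_nonneg _).trans (le_up _))
  have b2 : ((lo C - R : ℤ) : ℝ) * 4096 ≤ ‖det (⟨0, 4096, ge C + Δ, 0⟩ : M2)‖ := by
    have := norm_sub_norm_le (ge C) (-Δ)
    rw [norm_neg, sub_neg_eq_add] at this
    simp only [det, mul_zero, zero_sub, norm_neg, norm_mul, Complex.norm_ofNat]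
    push_cast
    linarith [lo_le C]
  have z : X.c = 0 := by
    refine shimizu hd w3 ?_
    have h2' : (((up q.v + (up q.d * R + q.e) : ℤ) : ℝ)) ^ 2 <
        (((lo C - R : ℤ) : ℝ) * 4096) ^ (w.length + 1) := by exact_mod_cast h2
    have h1' : (0 : ℝ) < ((lo C - R : ℤ) : ℝ) := by exact_mod_cast h1
    rw [dt, ← pow_succ]
    refine lt_of_le_of_lt (pow_le_pow_left₀ (norm_nonneg _) ?_ 2)
      (h2'.trans_le (pow_le_pow_left₀ (by positivity) b2 _))
    push_cast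
    linarith [norm_sub_norm_le X.c (ge q.v), le_up q.v]
  refine ⟨h3.resolve_right fun h => ?_, ?_⟩
  · have h' : ((up q.d * R + q.e : ℤ) : ℝ) < lo q.v := by exact_mod_cast h
    rw [z, zero_sub, norm_neg] at b1
    push_cast at h'
    linarith [lo_le q.v]
  · rw [sc'] at z
    exact (mul_eq_zero.1 z).resolve_left (by simp)

def zw : ℕ → List (ℤ × ℤ)
  | 0 => [(-1, 0), (0, -1)]
  | 1 => [(-1, 0), (1, 0)]
  | 2 => [(-1, 0), (0, -1), (-1, 0)]
  | 3 => [(-1, 0), (0, -1), (0, -1)]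
  | 4 => [(-1, 0), (1, 0), (-1, 0)]
  | 5 => [(-1, 0), (0, -1), (-1, 0), (1, 0), (0, 1)]
  | 6 => [(-1, 0), (1, 0), (-1, 0), (0, -1), (0, -1)]
  | _ => [(-1, 0), (0, -1), (0, -1), (-1, 0), (1, 0)]

theorem gi_of {c : ℂ} (m n : ℤ) (h : c - (m + n * I) = 0) : GI c := ⟨m, n, sub_eq_zero.1 h⟩

theorem zw_ok {c : ℂ} (h0 : c ≠ 0) (h1 : 1 ≤ ‖c‖) (j : ℕ)
    (h : (wm ⟨0, 1, c, 0⟩ (zw j) ⟨0, 1, c, 0⟩).c = 0) : GI c ∨ c = c0 := by
  have i2 := I_mul_I
  have k : ∀ (m : ℕ) (f : ℂ), c ^ m * f = 0 → f = 0 := fun m f e =>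
    (mul_eq_zero.1 e).resolve_left (pow_ne_zero _ h0)
  unfold zw at h
  split at h <;> simp only [wm, tl, ge, mul_a, mul_b, mul_c, mul_d] at h <;> push_cast at h
  · exact Or.inl (gi_of 0 1 (k 2 _ (by push_cast; grind)))
  · exact Or.inl (gi_of 1 0 (k 2 _ (by push_cast; grind)))
  · exact Or.inl (gi_of 0 2 (k 3 _ (by push_cast; grind)))
  · exact Or.inl (gi_of 1 1 (k 3 _ (by push_cast; grind)))
  · exact Or.inl (gi_of 2 0 (k 3 _ (by push_cast; grind)))
  · rcases mul_eq_zero.1 (k 4 ((c - I) * (c - (1 + 2 * I))) (by grind)) with e | e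
    · exact Or.inl (gi_of 0 1 (by simpa using e))
    · exact Or.inl (gi_of 1 2 (by simpa using e))
  · rcases mul_eq_zero.1 (k 4 ((c - 1) * (c - (2 + I))) (by grind)) with e | e
    · exact Or.inl (gi_of 1 0 (by simpa using e))
    · exact Or.inl (gi_of 2 1 (by simpa using e))
  · have z := z8_sq
    rcases mul_eq_zero.1 (k 4 ((c - c0) * (c - (1 + I - z8))) (by unfold c0; grind)) with e | e
    · exact Or.inr (sub_eq_zero.1 e)
    · exfalso
      have e8' : e8 ⟨1, -1, 1, 0⟩ = 1 + I - z8 := by simp [e8, z8_sq]; ring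
      have n := e8_nsq ⟨1, -1, 1, 0⟩
      rw [e8', ← sub_eq_zero.1 e] at n
      simp [Z8.nA, Z8.nB] at n
      nlinarith [s2_lo]

def dec : ℕ → ℕ → List (ℤ × ℤ)
  | 0, _ => []
  | f + 1, n => if n = 0 then [] else
      ((((n % 26 - 1) / 5 : ℕ) : ℤ) - 2, (((n % 26 - 1) % 5 : ℕ) : ℤ) - 2) :: dec f (n / 26)

/-- quadtrees -/
inductive Tr where
  | o : Tr
  | z : ℕ → Tr
  | k : ℕ → Tr
  | n : Tr → Tr → Tr → Tr → Tr

def rad (h : ℕ) : ℤ := 2 ^ h * 1415 / 1000 + 1

def Tr.chk : Tr → ℤ → ℤ → ℕ → Bool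
  | .o, X, Y, h => decide (0 ≤ X - 2 ^ h ∧ 0 ≤ Y - 2 ^ h ∧
      (169 * 4096 ^ 2 < 25 * nq (X - 2 ^ h, Y - 2 ^ h) ∨ nq (X + 2 ^ h, Y + 2 ^ h) < 4096 ^ 2))
  | .z j, X, Y, h => test (X, Y) (rad h) (zw j) true
  | .k m, X, Y, h => test (X, Y) (rad h) (dec 12 m) false
  | .n _ _ _ _, _, _, 0 => false
  | .n a b c d, X, Y, h + 1 => a.chk (X - 2 ^ h) (Y - 2 ^ h) h && b.chk (X + 2 ^ h) (Y - 2 ^ h) h &&
      c.chk (X - 2 ^ h) (Y + 2 ^ h) h && d.chk (X + 2 ^ h) (Y + 2 ^ h) h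

theorem rad_ok {x : ℂ} {X Y : ℤ} {h : ℕ} (h1 : |x.re - X| ≤ 2 ^ h) (h2 : |x.im - Y| ≤ 2 ^ h) :
    ‖x - ge (X, Y)‖ ≤ rad h := by
  have a : (2 ^ h * 1415 : ℤ) ≤ 1000 * rad h := by unfold rad; omega
  have a' : (2 ^ h * 1415 : ℝ) ≤ 1000 * rad h := by exact_mod_cast a
  have p : (0 : ℝ) < 2 ^ h := by positivity
  refine (abs_le_of_sq_le_sq' ?_ (by linarith)).2
  rw [← normSq_eq_norm_sq, normSq_apply]
  simp only [ge, sub_re, add_re, intCast_re, mul_re, I_re, mul_zero, intCast_im, I_im, mul_one,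
    sub_self, add_zero, sub_im, add_im, mul_im, zero_add]
  have b1 := abs_le.1 h1
  have b2 := abs_le.1 h2
  nlinarith

theorem Tr.sound {c : ℂ} (hd : IsDiscrete (ext3 c : Set PSL)) (h1 : 1 ≤ ‖c‖) (h2 : ‖c‖ ≤ 13 / 5)
    (t : Tr) : ∀ (X Y : ℤ) (h : ℕ), t.chk X Y h = true → |(4096 * c).re - X| ≤ 2 ^ h →
      |(4096 * c).im - Y| ≤ 2 ^ h → GI c ∨ c = c0 := by
  have h0 : c ≠ 0 := by rintro rfl; norm_num at h1
  induction t with
  | o =>
    intro X Y h e a b
    exfalso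
    obtain ⟨x0, y0, e⟩ := of_decide_eq_true e
    have n : ‖c‖ ^ 2 = c.re * c.re + c.im * c.im := by rw [← normSq_eq_norm_sq, normSq_apply]
    have x0' : (0 : ℝ) ≤ X - 2 ^ h := by exact_mod_cast x0
    have y0' : (0 : ℝ) ≤ Y - 2 ^ h := by exact_mod_cast y0
    have a' := abs_le.1 a
    have b' := abs_le.1 b
    simp only [mul_re, re_ofNat, im_ofNat, zero_mul, sub_zero, mul_im, add_zero] at a' b'
    rcases e with e | e
    · have e' : (169 * 4096 ^ 2 : ℝ) < 25 * ((X - 2 ^ h) * (X - 2 ^ h) + (Y - 2 ^ h) * (Y - 2 ^ h)) := by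
        exact_mod_cast e
      have p1 := mul_self_le_mul_self x0' (show (X : ℝ) - 2 ^ h ≤ 4096 * c.re by linarith)
      have p2 := mul_self_le_mul_self y0' (show (Y : ℝ) - 2 ^ h ≤ 4096 * c.im by linarith)
      nlinarith
    · have e' : ((X + 2 ^ h) * (X + 2 ^ h) + (Y + 2 ^ h) * (Y + 2 ^ h) : ℝ) < 4096 ^ 2 := by
        exact_mod_cast e
      have p1 := mul_self_le_mul_self (show 0 ≤ 4096 * c.re by linarith)
        (show 4096 * c.re ≤ (X : ℝ) + 2 ^ h by linarith)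
      have p2 := mul_self_le_mul_self (show 0 ≤ 4096 * c.im by linarith)
        (show 4096 * c.im ≤ (Y : ℝ) + 2 ^ h by linarith)
      nlinarith
  | z j => exact fun X Y h e a b => zw_ok h0 h1 j (test_ok h0 hd (rad_ok a b) e).2
  | k m => exact fun X Y h e a b => absurd (test_ok h0 hd (rad_ok a b) e).1 (by simp)
  | n a b c' d ia ib ic id =>
    intro X Y h e u v
    rcases h with _ | h
    · simp [Tr.chk] at e
    simp only [Tr.chk, Bool.and_eq_true] at e
    obtain ⟨⟨⟨e1, e2⟩, e3⟩, e4⟩ := e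
    rw [abs_le, pow_succ] at u v
    rcases le_total (4096 * c).re X with p | p <;> rcases le_total (4096 * c).im Y with q | q
    · refine ia _ _ _ e1 ?_ ?_ <;> rw [abs_le] <;> push_cast <;> constructor <;> linarith
    · refine ic _ _ _ e3 ?_ ?_ <;> rw [abs_le] <;> push_cast <;> constructor <;> linarith
    · refine ib _ _ _ e2 ?_ ?_ <;> rw [abs_le] <;> push_cast <;> constructor <;> linarith
    · refine id _ _ _ e4 ?_ ?_ <;> rw [abs_le] <;> push_cast <;> constructor <;> linarith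

def tree : Tr :=
  (.n (.n (.n .o (.n .o (.z 1) .o (.z 1)) (.n .o .o (.z 0) (.z 0)) (.n (.n .o .o .o (.z 3)) (.n (.z
  1) (.z 1) (.z 3) (.z 3)) (.n (.z 0) (.z 3) (.z 0) (.z 3)) (.z 3))) (.n (.n (.z 1) (.n (.z 1) (.z
  1) (.z 1) (.z 1)) (.n (.z 1) (.z 1) (.z 1) (.z 1)) (.n (.z 1) (.z 1) (.z 1) (.k 219344))) (.n (.n
  (.z 1) (.z 4) (.z 4) (.z 4)) (.z 4) (.n (.k 8431) (.k 219344) (.k 219344) (.k 8431)) (.n (.z 4)
  (.z 4) (.n (.z 4) (.z 4) (.k 8431) (.k 304671)) (.n (.z 4) (.z 4) (.n (.z 4) (.z 4) (.k 304671)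
  (.k 219344)) (.k 219344)))) (.n (.n (.z 1) (.z 1) (.z 3) (.z 3)) (.n (.k 8431) (.k 219344) (.k
  8431) (.k 8431)) (.z 3) (.n (.z 3) (.k 322226) (.z 3) (.k 322226))) (.n (.n (.k 219344) (.k 8431)
  (.k 8431) (.k 219344)) (.n (.n (.k 8431) (.k 322225) (.k 219344) (.k 322225)) (.n (.n (.k 322225)
  (.k 219344) (.k 322225) (.k 219344)) (.k 219344) (.k 219344) (.k 219344)) (.k 219344) (.n (.k
  131463) (.k 219344) (.z 6) (.z 6))) (.n (.n (.k 8431) (.z 6) (.k 256003) (.z 6)) (.n (.z 6) (.z 6)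
  (.z 6) (.z 6)) (.n (.k 149039) (.z 6) (.k 149039) (.k 149039)) (.n (.z 6) (.z 6) (.z 6) (.z 6)))
  (.n (.z 6) (.n (.z 6) (.z 6) (.z 6) (.z 6)) (.z 6) (.z 6)))) (.n (.n (.z 0) (.n (.z 0) (.z 0) (.z
  0) (.z 0)) (.n (.z 0) (.z 0) (.z 0) (.z 0)) (.n (.z 0) (.z 0) (.z 0) (.k 322096))) (.n (.n (.z 0)
  (.z 3) (.z 0) (.z 3)) (.z 3) (.n (.k 5727) (.k 5727) (.k 322096) (.k 5727)) (.n (.z 3) (.z 3) (.k
  215964) (.k 215964))) (.n (.n (.z 0) (.z 2) (.z 2) (.z 2)) (.n (.k 5727) (.k 322096) (.k 322096)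
  (.k 5727)) (.z 2) (.n (.z 2) (.n (.z 2) (.k 5727) (.z 2) (.k 304515)) (.z 2) (.n (.z 2) (.n (.z 2)
  (.k 304515) (.z 2) (.k 148910)) (.z 2) (.k 322096)))) (.n (.n (.k 322096) (.k 5727) (.k 5727) (.k
  322096)) (.n (.n (.k 5727) (.k 258447) (.z 5) (.z 5)) (.n (.k 258447) (.k 258447) (.z 5) (.k
  322095)) (.n (.z 5) (.z 5) (.z 5) (.z 5)) (.n (.z 5) (.z 5) (.z 5) (.z 5))) (.n (.n (.k 5727) (.k
  322096) (.k 148909) (.k 148909)) (.k 322096) (.n (.n (.k 148909) (.k 148909) (.k 322096) (.k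
  322096)) (.k 322096) (.k 322096) (.k 322096)) (.n (.k 304519) (.z 5) (.k 322096) (.z 5))) (.n (.z
  5) (.z 5) (.n (.z 5) (.z 5) (.z 5) (.z 5)) (.z 5)))) (.n (.n (.n (.z 3) (.z 3) (.z 3) (.z 3)) (.n
  (.z 3) (.k 149039) (.n (.z 3) (.z 3) (.z 3) (.z 3)) (.k 149039)) (.n (.z 3) (.n (.z 3) (.z 3) (.z
  3) (.z 3)) (.k 322095) (.k 322095)) (.n (.n (.z 3) (.k 255999) (.k 149035) (.k 149040)) (.k
  256004) (.k 149040) (.n (.k 149040) (.k 256004) (.k 149040) (.k 149040)))) (.n (.n (.k 256004) (.n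
  (.k 149039) (.z 6) (.k 149039) (.k 149039)) (.k 256004) (.k 256004)) (.n (.n (.z 6) (.z 6) (.z 6)
  (.z 6)) (.z 6) (.n (.k 256004) (.z 6) (.k 256004) (.k 256004)) (.n (.z 6) (.z 6) (.n (.z 6) (.z 6)
  (.k 146554415) (.k 146554415)) (.k 148191688))) (.n (.n (.k 149039) (.k 149039) (.k 256004) (.k
  103425616)) (.n (.k 5615176) (.k 256004) (.k 5615176) (.k 256004)) (.k 256004) (.n (.k 256004) (.k
  256004) (.k 256004) (.k 256004))) (.n (.n (.k 256004) (.k 256004) (.k 256004) (.k 8374607)) (.n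
  (.n (.k 8374607) (.k 146554415) (.k 8374607) (.k 8374607)) (.n (.k 146554415) (.k 91544239) (.k
  8374607) (.k 148191688)) (.k 8374607) (.k 8374607)) (.n (.k 256004) (.k 8374607) (.n (.k 256004)
  (.k 256004) (.k 256004) (.k 100750683)) (.k 8374607)) (.n (.k 103425616) (.n (.k 8374607) (.k
  8374607) (.k 8374607) (.k 8374607)) (.k 103425616) (.n (.k 8374607) (.k 8374607) (.k 8374607) (.k
  8374607))))) (.n (.n (.k 149040) (.k 149040) (.n (.k 322095) (.k 322095) (.z 5) (.k 322095)) (.k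
  149040)) (.n (.n (.k 322095) (.k 149040) (.k 322095) (.k 148276994)) (.k 149040) (.n (.k 5700482)
  (.k 5700482) (.k 149040) (.k 149040)) (.n (.k 149040) (.k 149040) (.k 149040) (.k 149040))) (.n
  (.n (.z 5) (.z 5) (.z 5) (.z 5)) (.n (.k 149040) (.k 149040) (.z 5) (.k 149040)) (.z 5) (.n (.z 5)
  (.n (.z 5) (.k 148209263) (.z 5) (.k 208703151)) (.z 5) (.k 217736540))) (.n (.n (.k 149040) (.k
  149040) (.k 149040) (.k 6719759)) (.n (.k 149040) (.n (.k 149040) (.k 149040) (.k 149040) (.k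
  217736539)) (.k 6719759) (.k 6719759)) (.n (.n (.k 6719759) (.k 6719759) (.k 148209263) (.k
  6719759)) (.k 6719759) (.n (.k 148209263) (.k 6719759) (.k 208703151) (.k 217736540)) (.k
  6719759)) (.n (.k 173059024) (.k 173059024) (.n (.k 6719759) (.k 6719759) (.k 6719759) (.k
  6719759)) (.n (.k 6719759) (.k 6719759) (.k 6719759) (.k 6719759))))) (.n (.n (.n (.n (.k 149040)
  (.k 149040) (.k 149040) (.z 7)) (.k 100666184) (.k 173080812) (.z 7)) (.n (.z 7) (.k 103425616)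
  (.z 7) (.z 7)) (.n (.k 8481572) (.z 7) (.k 174820836) (.z 7)) (.z 7)) (.n (.n (.k 103425616) (.k
  103425616) (.z 7) (.n (.k 103425616) (.k 3795774120) (.z 7) (.k 91651204))) (.n (.n (.k 8374607)
  (.k 8374607) (.k 103425616) (.k 2265836048)) (.n (.k 173059154) (.k 173059154) (.k 173059154) (.k
  173059154)) (.n (.k 2574751824) (.k 5735761780) (.n (.k 91651204) (.k 3881703183) (.k 174713871)
  (.k 174713871)) (.k 4440127856)) (.n (.n (.k 186595247) (.k 173059154) (.k 3795774120) (.k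
  4511416111)) (.k 68064896336) (.k 69918497956) (.k 5661235484))) (.n (.z 7) (.n (.z 7) (.k
  174713871) (.z 7) (.z 7)) (.z 7) (.n (.z 7) (.z 7) (.z 7) (.k 174713871))) (.n (.n (.k 174713871)
  (.k 174713871) (.k 174713871) (.k 174713871)) (.n (.k 5664016548) (.k 5661235484) (.k 174713871)
  (.k 5661235484)) (.n (.n (.k 174713871) (.k 174713871) (.k 174713871) (.k 174713871)) (.n (.k
  174713871) (.k 174713871) (.k 103532580) (.k 174713871)) (.k 174713871) (.k 103532580)) (.n (.k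
  174713871) (.k 5675790960) (.k 174713871) .o))) (.n (.n (.k 173059024) (.z 7) (.k 173059024) (.n
  (.k 173059024) (.z 7) (.k 3853526282) (.k 234120752))) (.n (.z 7) (.z 7) (.n (.z 7) (.z 7) (.k
  173059023) (.k 8481572)) (.n (.z 7) (.z 7) (.z 7) (.k 173059023))) (.n (.n (.k 6719759) (.k
  173059024) (.k 6719759) (.k 5663452608)) (.n (.k 2693565584) (.n (.k 234120752) (.k 173059023) (.k
  2644385231) (.k 173059023)) (.k 5663452608) (.k 5663452608)) (.n (.k 102968640) (.k 102968640) (.k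
  102968640) (.k 102968640)) (.n (.n (.k 184940399) (.k 5663452608) (.k 102968640) (.k 5745424367))
  (.k 118180540304) (.k 116944984164) (.k 5733542992))) (.n (.n (.k 173059023) (.k 173059023) (.k
  173059023) (.k 173059023)) (.n (.n (.k 173059023) (.k 173059023) (.k 173059023) (.k 173059023))
  (.k 173059023) (.n (.k 173059023) (.k 174713872) (.k 173059023) (.k 173059023)) (.k 174713872))
  (.n (.k 5735197840) (.k 173059023) (.k 5733542992) (.k 5733542992)) (.n (.k 173059023) (.k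
  173059023) (.k 5733542992) .o))) (.n (.n (.z 7) (.n (.z 7) (.k 174713871) (.k 44125700) (.k
  103532580)) (.n (.z 7) (.k 186595248) (.k 173059023) (.k 174713872)) (.n (.k 2646040080) (.k
  103532580) (.k 174713872) .o)) (.n (.k 103532580) .o .o .o) (.n (.k 174713872) .o .o .o) .o))))
  (.n (.n (.n (.n (.z 4) (.z 4) (.z 4) (.z 4)) (.n (.n (.z 4) (.k 322252) (.z 4) (.n (.z 4) (.z 4)
  (.z 4) (.z 4))) (.k 322252) (.n (.z 4) (.n (.z 4) (.k 322252) (.z 4) (.k 219343)) (.k 219343) (.k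
  219343)) (.n (.k 322252) (.k 322252) (.k 5703056) (.k 5703056))) (.n (.n (.z 4) (.z 4) (.z 4) (.z
  4)) (.n (.z 4) (.z 4) (.k 219343) (.k 173059180)) (.n (.k 219344) (.k 219343) (.k 219344) (.k
  219344)) (.n (.k 219343) (.k 219343) (.k 3960484) (.k 219343))) (.n (.n (.k 173059180) (.k 219343)
  (.k 173059180) (.k 219343)) (.n (.k 5703056) (.k 5703056) (.k 5788388) (.k 5703056)) (.n (.k
  219343) (.k 219343) (.k 3978034) (.k 173059180)) (.n (.n (.k 219343) (.k 2961199) (.k 3503508) (.k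
  100839396)) (.n (.k 5703056) (.k 5703056) (.k 112635440) (.k 173059180)) (.n (.k 1133295) (.k
  112635440) (.k 146080020) (.k 173059180)) (.k 173059180)))) (.n (.n (.n (.k 322252) (.n (.k
  322252) (.n (.k 322252) .o (.k 322252) .o) (.k 322252) (.k 322252)) (.k 322252) (.k 322252)) .o
  (.n (.k 322252) (.k 322252) (.n (.k 322252) (.k 322252) (.k 322252) (.k 322252)) (.k 5703056)) .o)
  .o (.n (.n (.n (.k 148276344) (.k 148364900) (.k 5703056) (.k 5703056)) (.k 5703056) (.k 5703056)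
  (.n (.k 5703056) .o (.k 5703056) .o)) .o (.n (.n (.k 5703056) (.k 5703056) (.k 173059180) (.k
  173059180)) (.n (.k 5703056) .o (.k 147261734628) .o) (.n (.k 3418175) (.k 173059180) (.k
  100754064) (.k 3418175)) (.n (.k 147261734628) .o .o .o)) .o) .o) (.n (.n (.n (.k 219344) (.k
  219344) (.k 219344) (.k 219344)) (.n (.k 8378716) (.k 173059180) (.k 3978034) (.k 3978034)) (.n
  (.k 219344) (.k 103425746) (.k 6653667) (.k 7985388)) (.n (.k 3875151) (.k 217825252) (.k 3875151)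
  (.n (.k 3875151) (.k 217825252) (.k 3875151) (.k 3875151)))) (.n (.n (.k 3978034) (.k 173059180)
  (.k 173059180) (.k 173059180)) (.n (.k 173059180) (.k 173059180) (.n (.k 173059180) (.k 217282944)
  (.k 170214415) (.k 217282944)) (.n (.k 100754064) (.k 100754064) (.k 145994687) (.k 100754064)))
  (.n (.k 217825252) (.n (.k 3875151) (.k 170214415) (.k 3875151) (.k 170214415)) (.n (.k 217825252)
  (.k 3875151) (.k 3875151) (.k 3875151)) (.n (.k 3875151) (.k 217825252) (.k 3875151) (.k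
  217825252))) (.n (.k 4497880044) (.k 3855266332) (.k 3855266332) (.n (.k 5661238032) (.k
  5661238032) (.k 5661238032) (.k 3852983999)))) (.n (.n (.z 6) (.z 6) (.z 6) (.z 6)) (.n (.k
  217825252) (.n (.k 3875151) (.k 3875151) (.k 3875151) (.k 3875151)) (.n (.z 6) (.z 6) (.z 6) (.z
  6)) (.k 217825252)) (.z 6) (.n (.z 6) (.n (.z 6) (.k 217739919) (.z 6) (.k 217739919)) (.z 6) (.n
  (.z 6) (.k 217739919) (.z 6) (.k 217739919)))) (.n (.n (.n (.k 3875151) (.k 3875151) (.k 3875151)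
  (.k 145994688)) (.n (.k 217825252) (.k 217825252) (.k 145994688) (.k 217825252)) (.k 217843504)
  (.n (.k 145994688) (.k 145994688) (.k 217739919) (.k 145994688))) (.n (.n (.k 217825252) (.k
  3855266332) (.k 217825252) (.k 3855266332)) (.n (.k 5661238032) (.k 3852983999) (.k 5661238032)
  (.k 5661238032)) (.n (.k 148277020) (.k 3855266332) (.k 148277020) (.k 148277020)) (.n (.k
  3855266332) (.k 3855266332) (.k 3855266332) .o)) (.n (.k 148277020) (.k 148277020) (.k 148277020)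
  (.n (.k 148277020) (.k 217739919) (.k 217739919) (.k 217739919))) (.n (.k 148277020) (.n (.k
  148277020) .o .o .o) (.n (.k 217739919) (.k 148277020) (.k 3852984000) (.k 148277020)) .o))) (.n
  (.n (.n (.n (.k 100754064) (.k 3418175) (.k 3418175) (.k 147261734628)) .o (.n (.k 100754064) (.k
  3855266332) (.k 100754064) (.k 100754064)) .o) .o (.n (.n (.k 100754064) .o (.k 5661238032) .o) .o
  (.n (.k 3852983999) .o .o .o) .o) .o) .o .o .o)) .o (.n (.n (.n (.n (.z 6) (.z 6) (.z 6) (.z 6))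
  (.n (.z 6) (.n (.z 6) (.k 217739919) (.z 6) (.k 148191687)) (.n (.z 6) (.z 6) (.z 6) (.z 6)) (.n
  (.k 3924729232) (.k 148191687) (.k 3927507748) (.k 148191687))) (.n (.z 6) (.n (.z 6) (.z 6) (.z
  6) (.z 6)) (.n (.z 6) (.z 6) (.k 148191688) (.k 103425615)) (.n (.k 103425615) (.k 103425615) (.k
  103425615) (.k 103425615))) (.n (.n (.z 6) (.k 148191687) (.k 103425615) (.k 103425615)) (.n (.k
  148191687) (.k 148191687) (.k 103425615) (.k 217739920)) (.n (.k 103425615) (.k 103425615) (.k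
  217739920) (.k 217739920)) (.n (.k 103425615) (.k 103425615) (.k 103425615) (.k 103425615)))) (.n
  (.n (.k 148277020) (.n (.k 217739919) (.k 217739919) (.k 217739919) (.k 148277020)) (.n (.k
  148277020) (.k 148277020) (.n (.k 148191687) (.k 148191687) (.k 148191687) (.k 148191687)) (.k
  3927507748)) (.n (.k 148277020) (.k 148277020) (.k 148277020) (.k 148277020))) (.n (.n (.k
  148277020) .o (.k 148277020) .o) .o .o .o) (.n (.n (.k 5649354108) (.k 3927507748) (.k 217739920)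
  (.n (.k 217739920) (.k 217739920) (.k 217739920) (.k 217739920))) (.n (.n (.k 2310602119) (.k
  2310602119) (.k 3927507748) (.k 2689066128)) (.k 2689066128) (.n (.k 115134408592) (.k 2689066128)
  (.k 2310602119) .o) .o) (.n (.k 217739920) (.k 217739920) (.k 217739920) (.k 217739920)) (.n (.n
  (.k 5354993807) .o .o .o) .o .o .o)) .o) (.n (.n (.n (.k 3912847856) (.k 148191688) (.k
  4425572380) (.k 148191688)) (.n (.k 103425615) (.k 103425615) (.k 103425615) (.k 103425615)) (.n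
  (.k 148191688) (.k 148191688) (.k 8374607) (.k 148191688)) (.n (.k 148191688) (.k 4545339300) (.k
  3810414928) (.k 3810414928))) (.n (.k 220518436) (.n (.k 103425615) (.k 103425615) (.k 103425615)
  (.k 217739920)) (.n (.k 217739920) (.k 217739920) (.k 4497880018) (.k 4497880018)) (.n (.k
  217739920) (.k 217739920) (.n (.k 217739920) (.k 217739920) (.k 217739920) (.k 3000760420)) (.n
  (.k 217739920) .o .o .o))) (.n (.n (.k 8374607) (.k 3810414928) (.k 8374607) (.k 173059154)) (.n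
  (.k 2619517896) (.k 3810414928) (.k 2619517896) (.k 2619517896)) (.n (.k 173059154) (.k 173059154)
  (.k 173059154) (.k 2619517896)) (.n (.k 173059154) (.k 3853544560) (.k 115306991) (.k 115306991)))
  (.n (.n (.k 3810414928) (.k 4497880018) (.k 2619517896) (.k 3810414928)) (.n (.n (.k 4497880018)
  (.k 3000760420) (.k 4497880018) .o) .o .o .o) (.n (.k 2619517896) (.k 3810414928) (.k 3810414928)
  .o) .o)) (.n (.n (.n (.k 217739920) .o (.k 217739920) .o) .o .o .o) .o .o .o)) .o (.n (.n (.n (.n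
  (.k 3810414928) (.k 3810414928) (.k 173059154) (.k 173059154)) (.n (.k 173059154) (.k 3810414928)
  (.k 115306991) (.k 115306991)) (.n (.k 173059154) (.k 173059154) (.k 5661235484) (.k 5661235484))
  (.n (.n (.k 173059154) .o (.k 173059154) .o) .o .o .o)) .o (.n (.n (.k 5661235484) .o (.n (.k
  5675790960) .o .o .o) .o) .o .o .o) .o) .o .o .o) .o) .o) (.n (.n (.n (.n (.z 2) (.z 2) (.z 2) (.z
  2)) (.n (.n (.z 2) (.z 2) (.z 2) (.z 2)) (.n (.k 322096) (.k 322096) (.k 216639) (.k 322096)) (.n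
  (.z 2) (.k 216639) (.z 2) (.k 100751360)) (.n (.k 216639) (.k 3960328) (.k 216639) (.k 216639)))
  (.n (.n (.z 2) (.z 2) (.k 199064) (.n (.z 2) (.z 2) (.z 2) (.z 2))) (.n (.z 2) (.k 216639) (.n (.z
  2) (.z 2) (.k 216640) (.k 216639)) (.k 216639)) (.k 216640) (.n (.k 216640) (.k 5700352) (.k
  216640) (.k 5700352))) (.n (.n (.k 100751360) (.k 100751360) (.k 216639) (.k 216639)) (.n (.k
  216639) (.k 3960328) (.k 216639) (.k 100751360)) (.n (.k 5700352) (.k 5632622) (.k 5700352) (.k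
  5700352)) (.n (.n (.k 216639) (.k 4417304) (.k 1130591) (.k 173041448)) (.n (.k 2958495) (.k
  100751360) (.k 100751360) (.k 100751360)) (.n (.k 5700352) (.k 100751360) (.k 5700352) (.k
  100751360)) (.k 100751360)))) (.n (.n (.n (.k 322096) (.k 322096) (.k 322096) (.k 322096)) (.n (.k
  322096) (.k 8484015) (.k 146448284) (.k 9004640)) (.n (.k 8484016) (.k 3960328) (.k 100751360) (.k
  3960328)) (.n (.k 5700351) (.k 5700351) (.k 146448284) (.n (.k 5700351) (.k 5700351) (.k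
  146448284) (.k 5700351)))) (.n (.n (.z 5) (.z 5) (.z 5) (.z 5)) (.z 5) (.n (.k 146448284) (.n (.z
  5) (.z 5) (.z 5) (.z 5)) (.n (.k 5700351) (.k 5700351) (.k 5700351) (.k 5700351)) (.k 146448284))
  (.n (.z 5) (.z 5) (.n (.z 5) (.z 5) (.k 100751359) (.k 100751359)) (.n (.z 5) (.z 5) (.k
  100751359) (.k 100751359)))) (.n (.n (.k 3960328) (.k 100751360) (.k 100751360) (.k 100751360))
  (.n (.k 146448284) (.n (.k 146448284) (.k 5700351) (.k 5700351) (.k 5700351)) (.n (.k 5700351) (.k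
  5700351) (.k 172039615) (.k 172039615)) (.n (.k 5700351) (.k 5700351) (.k 146448284) (.k
  146448284))) (.n (.k 100751360) (.n (.k 100751360) (.k 172039615) (.k 100751360) (.k 100751360))
  (.k 100751360) (.n (.k 100751360) (.k 145991983) (.k 100751360) (.k 173063236))) (.n (.k
  3807740672) (.k 3807740672) (.k 3807740672) (.n (.k 3807740672) (.k 3807740672) (.k 3807740672)
  (.k 2617318191)))) (.n (.n (.n (.k 5700351) (.k 5700351) (.k 5700351) (.k 146448284)) (.k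
  146448284) (.n (.k 146448284) (.k 146448284) (.k 146448284) (.k 146448284)) (.n (.k 146448284) (.k
  100751359) (.k 146448284) (.k 220584528))) (.n (.k 220584528) (.k 220584528) (.k 220584528) (.n
  (.k 220584528) (.k 100751359) (.k 100751359) (.k 100751359))) (.n (.n (.k 146448284) (.k
  146448284) (.k 3807740672) (.k 3807740672)) (.n (.k 220584528) (.k 220584528) (.k 3807740672) (.k
  220584528)) (.n (.k 3807740672) (.k 3807740672) (.k 2617318191) (.k 3807740672)) (.n (.k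
  3807740672) (.k 3807740672) (.k 3807740672) .o)) (.n (.k 220584528) (.n (.k 100751359) (.k
  3853437596) (.k 220584528) (.k 220584528)) (.n (.k 220584528) .o .o .o) .o))) (.n (.n (.n (.k
  216640) (.k 216640) (.n (.k 216640) (.k 216640) (.n (.k 216640) (.k 216640) .o .o) (.k 216640))
  (.k 216640)) (.n (.k 216640) (.n (.k 216640) (.k 216640) (.k 216640) (.k 216640)) (.k 216640) (.k
  5700352)) .o .o) (.n (.n (.n (.k 220566952) (.k 5700352) (.k 220566952) (.k 5700352)) (.k 5700352)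
  (.k 5700352) (.n (.k 5700352) (.k 5700352) .o .o)) (.n (.n (.k 5700352) (.k 100751360) (.k
  5700352) (.k 100751360)) (.n (.k 3415471) (.k 100751360) (.k 100751360) (.k 3415471)) (.n (.k
  5700352) (.k 98999040304) .o .o) (.n (.k 98999040304) .o .o .o)) .o .o) .o .o) (.n (.n (.n (.n (.k
  100751360) (.k 3415471) (.k 3415471) (.k 98999040304)) (.n (.k 173063236) (.k 173063236) (.k
  3807740672) (.k 173063236)) .o .o) (.n (.n (.k 173063236) (.k 3807740672) .o .o) (.n (.k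
  2617318191) .o .o .o) .o .o) .o .o) .o .o .o)) (.n (.n (.n (.n (.z 5) (.z 5) (.z 5) (.z 5)) (.n
  (.z 5) (.n (.z 5) (.k 217736540) (.z 5) (.k 220584527)) (.n (.z 5) (.z 5) (.z 5) (.z 5)) (.n (.k
  220584527) (.k 220584527) (.k 220584527) (.k 220584527))) (.n (.z 5) (.n (.z 5) (.z 5) (.z 5) (.z
  5)) (.n (.z 5) (.z 5) (.k 100751359) (.k 100751359)) (.n (.k 4471379492) (.k 4473030128) (.k
  146536839) (.k 146536839))) (.n (.n (.z 5) (.k 220584527) (.k 146536839) (.k 220584527)) (.n (.k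
  220584527) (.k 148209264) (.k 220584527) (.k 148209264)) (.n (.k 146536839) (.k 220584527) (.k
  146536839) (.k 148209264)) (.n (.k 220584527) (.k 220584527) (.k 220584527) (.k 220584527)))) (.n
  (.n (.n (.k 2703792112) (.k 3880048336) (.k 217736540) (.k 217736540)) (.n (.k 217736540) (.k
  6719759) (.k 217736540) (.k 217736540)) (.n (.k 220584527) (.k 220584527) (.k 220584527) (.k
  220584527)) (.n (.k 217736540) (.k 3855198576) (.k 3855198576) (.k 4499641700))) (.n (.n (.k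
  6719759) (.k 6719759) (.k 4499641700) (.k 102968640)) (.n (.k 102968640) (.k 102968640) (.k
  102968640) (.k 4499641700)) (.n (.k 4499641700) (.k 4499641700) (.k 4499641700) (.k 4542557404))
  (.n (.k 102968640) (.k 232465903) (.k 4542557404) (.k 232465903))) (.n (.k 148209264) (.n (.k
  148209264) (.k 4557286768) (.k 148209264) (.k 4557286768)) (.n (.k 220584527) (.k 220584527) (.k
  220584527) (.k 148209264)) (.n (.k 148209264) (.n (.k 148209264) (.k 148209264) (.k 148209264) (.k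
  2310619696)) (.k 148209264) (.n (.k 148209264) .o .o .o))) (.n (.n (.k 4499641700) (.k 4542557404)
  (.k 4557286768) (.k 4542557404)) (.n (.k 4499641700) (.k 4499641700) (.k 4499641700) .o) (.n (.n
  (.k 4557286768) (.k 4542557404) (.k 2310619696) .o) .o .o .o) .o)) (.n (.n (.k 220584528) (.n (.k
  220584528) (.n (.k 146536839) (.k 146536839) (.k 146536839) (.k 146536839)) (.k 220584528) (.k
  4473030128)) (.n (.k 100751359) (.k 100751359) (.k 100751359) (.k 220584528)) (.n (.k 220584528)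
  (.k 220584528) (.k 220584528) (.k 220584528))) (.n (.n (.k 5792949872) (.k 148209264) (.k
  4473030128) (.n (.k 148209264) (.k 148209264) (.k 148209264) (.k 148209264))) (.n (.k 148209264)
  (.k 148209264) (.k 148209264) (.k 148209264)) (.n (.n (.k 5352319551) (.k 4473030128) (.k
  5352319551) (.k 2691910736)) (.n (.k 147264493904) (.k 5352319551) (.k 2691910736) .o) (.k
  2691910736) .o) (.n (.n (.k 5352319551) .o .o .o) .o .o .o)) (.n (.n (.k 220584528) (.k 220584528)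
  .o .o) .o .o .o) .o) (.n (.n (.n (.k 148209264) (.k 148209264) .o .o) .o .o .o) .o .o .o)) (.n (.n
  (.n (.n (.k 4499641700) (.k 102968640) (.k 4499641700) (.k 102968640)) (.n (.k 102968640) (.k
  5733542992) (.k 102968640) (.k 5733542992)) (.n (.k 102968640) (.k 232465903) (.k 4542557404) (.k
  232465903)) (.n (.n (.k 102968640) (.k 102968640) .o .o) .o .o .o)) (.n (.n (.k 5733542992) (.n
  (.k 5733542992) .o .o .o) .o .o) .o .o .o) .o .o) .o .o .o) .o .o) .o .o) .o)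

theorem tree_ok : tree.chk 8192 8192 13 = true := by decide +kernel

/-- In the first quadrant, a discrete member with parameter of modulus at most 13/5 has a Gaussian
integer parameter or the parameter `c0`. -/
theorem cover {c : ℂ} (h0 : c ≠ 0) (hd : IsDiscrete (ext3 c : Set PSL)) (h2 : ‖c‖ ≤ 13 / 5)
    (hr : 0 ≤ c.re) (hi : 0 ≤ c.im) : GI c ∨ c = c0 := by
  have h1 : 1 ≤ ‖c‖ := by
    by_contra h
    refine h0 (shimizu hd (w3_h h0) ?_)
    have := norm_pos_iff.2 h0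
    simp only [det, mul_zero, one_mul, zero_sub, norm_neg]
    nlinarith
  have a := (abs_le.1 (abs_re_le_norm c)).2
  have b := (abs_le.1 (abs_im_le_norm c)).2
  refine tree.sound hd h1 h2 _ _ _ tree_ok ?_ ?_ <;> rw [abs_le] <;> simp <;> constructor <;>
    linarith

end Pool.Agent.Lib.MP_743898_gtN
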