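import Mathlib

set_option autoImplicit false

/-! A local-to-global criterion for group actions. -/

namespace Pool.Agent.Lib.MP_743898_gtN

variable {G X : Type} [Group G] [MulAction G X]

/-- Data of the local-to-global criterion. -/
structure Data (G X : Type) [Group G] [MulAction G X] where
  r1 : X → X → Prop
  r2 : X → X → Prop
  φ : X → X
  N : Set X
  S : Set G
  refl : ∀ x, r1 x x
  symm : ∀ {x y}, r1 x y → r1 y x
  tri : ∀ {x y z}, r1 x y → r1 y z → r2 x z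
  inv1 : ∀ (g : G) {x y}, r1 x y → r1 (g • x) (g • y)
  inv2 : ∀ (g : G) {x y}, r2 x y → r2 (g • x) (g • y)
  step : ∀ x, r1 x (φ x)
  contr : ∀ {x y}, r1 x y → r1 (φ x) (φ y)
  up : ∀ {x}, x ∈ N → φ x ∈ N
  reach : ∀ x, ∃ n, φ^[n] x ∈ N
  join : ∀ x y, Relation.ReflTransGen r1 x y
  one : (1 : G) ∈ S
  inv : ∀ {s}, s ∈ S → s⁻¹ ∈ S
  A : ∀ {x s t}, x ∈ N → s • x ∈ N → (t * s) • x ∈ N → s ∈ S → t ∈ S → t * s ∈ S
  B : ∀ {x}, x ∈ N → ∃ s ∈ S, ∀ y, r2 x y → s • y ∈ N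

namespace Data

variable (D : Data G X)

theorem trans {x : X} {a b c : G} (ha : a • x ∈ D.N) (hb : b • x ∈ D.N) (hc : c • x ∈ D.N)
    (h1 : a * b⁻¹ ∈ D.S) (h2 : b * c⁻¹ ∈ D.S) : a * c⁻¹ ∈ D.S := by
  have := D.A (x := c • x) (s := b * c⁻¹) (t := a * b⁻¹) hc (by simpa [mul_smul] using hb)
    (by simpa [mul_smul] using ha) h2 h1
  simpa [mul_assoc] using this

theorem sym {a b : G} (h : a * b⁻¹ ∈ D.S) : b * a⁻¹ ∈ D.S := by simpa using D.inv h

theorem deep {x : X} {g : G} (h : g • x ∈ D.N) :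
    ∃ d : G, d * g⁻¹ ∈ D.S ∧ ∀ y, D.r2 x y → d • y ∈ D.N := by
  obtain ⟨s, hs, h2⟩ := D.B h
  exact ⟨s * g, by simpa using hs, fun y hy => by rw [mul_smul]; exact h2 _ (D.inv2 g hy)⟩

/-- one class over the point `x` -/
structure Cls (x : X) (T : Set G) : Prop where
  ne : T.Nonempty
  mem : ∀ {g}, g ∈ T → g • x ∈ D.N
  rel : ∀ {g h}, g ∈ T → h ∈ T → g * h⁻¹ ∈ D.S
  sat : ∀ {g h}, g ∈ T → h • x ∈ D.N → h * g⁻¹ ∈ D.S → h ∈ T

def sg : ℕ → X → Set G
  | 0, x => {g | g • x ∈ D.N ∧ g ∈ D.S}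
  | n + 1, x => {g | g • x ∈ D.N ∧ ∃ h ∈ sg n (D.φ x), h • x ∈ D.N ∧ g * h⁻¹ ∈ D.S}

theorem sg_cls (n : ℕ) : ∀ x, D.φ^[n] x ∈ D.N → D.Cls x (D.sg n x) := by
  induction n with
  | zero =>
    intro x hx
    have h1 : (1 : G) • x ∈ D.N := by simpa using hx
    refine ⟨⟨1, h1, D.one⟩, fun h => h.1, fun hg hh => ?_, fun hg hh hr => ⟨hh, ?_⟩⟩
    · exact D.trans hg.1 h1 hh.1 (by simpa using hg.2) (by simpa using D.inv hh.2)
    · simpa using D.trans hh hg.1 h1 hr (by simpa using hg.2)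
  | succ n ih =>
    intro x hx
    have c := ih (D.φ x) hx
    refine ⟨?_, fun h => h.1, ?_, ?_⟩
    · obtain ⟨g, hg⟩ := c.ne
      obtain ⟨d, h1, h2⟩ := D.deep (c.mem hg)
      have := h2 x (D.tri (D.symm (D.step x)) (D.refl x))
      exact ⟨d, this, d, c.sat hg (h2 _ (D.tri (D.refl _) (D.refl _))) h1, this,
        by simpa using D.one⟩
    · rintro g h ⟨a1, g', a2, a3, a4⟩ ⟨b1, h', b2, b3, b4⟩
      exact D.trans a1 b3 b1 (D.trans a1 a3 b3 a4 (c.rel a2 b2)) (D.sym b4)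
    · rintro g h ⟨a1, g', a2, a3, a4⟩ b1 b2
      exact ⟨b1, g', a2, a3, D.trans b1 a1 a3 b2 a4⟩

theorem sg_move (n : ℕ) : ∀ x y, D.φ^[n] x ∈ D.N → D.φ^[n] y ∈ D.N → D.r1 x y →
    ∀ g ∈ D.sg n x, g • y ∈ D.N → g ∈ D.sg n y := by
  induction n with
  | zero => exact fun x y _ _ _ g hg h => ⟨h, hg.2⟩
  | succ n ih =>
    rintro x y hx hy r g ⟨a1, g', a2, a3, a4⟩ b
    have c := D.sg_cls n _ hx
    obtain ⟨d, h1, h2⟩ := D.deep (c.mem a2)
    have e := D.symm (D.step x)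
    have d1 := c.sat a2 (h2 _ (D.tri (D.refl _) (D.refl _))) h1
    have d2 := ih _ _ hx hy (D.contr r) d d1 (h2 _ (D.tri (D.contr r) (D.refl _)))
    exact ⟨b, d, d2, h2 _ (D.tri e r), D.trans a1 a3 (h2 _ (D.tri e (D.refl _))) a4 (D.sym h1)⟩

theorem sg_succ (n : ℕ) : ∀ x, D.φ^[n] x ∈ D.N → D.sg (n + 1) x = D.sg n x := by
  induction n with
  | zero =>
    intro x hx
    have h1 : (1 : G) • x ∈ D.N := by simpa using hx
    ext g
    refine ⟨fun ⟨a1, h, a2, a3, a4⟩ => ⟨a1, ?_⟩, fun ⟨a1, a2⟩ =>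
      ⟨a1, 1, ⟨by simpa using D.up hx, D.one⟩, h1, by simpa using a2⟩⟩
    simpa using D.trans a1 a3 h1 a4 (by simpa using a2.2)
  | succ n ih =>
    intro x hx
    have := ih (D.φ x) hx
    rw [sg, this, sg]

theorem up_iter {x : X} {n : ℕ} (h : D.φ^[n] x ∈ D.N) (k : ℕ) : D.φ^[n + k] x ∈ D.N := by
  induction k with
  | zero => exact h
  | succ k ih => rw [← add_assoc, Function.iterate_succ_apply']; exact D.up ih

theorem sg_add {x : X} {n : ℕ} (h : D.φ^[n] x ∈ D.N) (k : ℕ) : D.sg (n + k) x = D.sg n x := by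
  induction k with
  | zero => rfl
  | succ k ih => rw [← add_assoc, D.sg_succ _ _ (D.up_iter h k), ih]

/-- a compatible choice of classes -/
structure Sec (σ : X → Set G) : Prop where
  cls : ∀ x, D.Cls x (σ x)
  move : ∀ {x y g}, D.r1 x y → g ∈ σ x → g • y ∈ D.N → g ∈ σ y

theorem exists_sec : ∃ σ, D.Sec σ ∧ ∀ x ∈ D.N, (1 : G) ∈ σ x := by
  choose n hn using D.reach
  refine ⟨fun x => D.sg (n x) x, ⟨fun x => D.sg_cls _ _ (hn x), fun {x y g} r hg h => ?_⟩,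
    fun x hx => ?_⟩
  · have hy := D.up_iter (hn y) (n x)
    rw [← D.sg_add (hn y) (n x)]
    rw [← D.sg_add (hn x) (n y), add_comm] at hg
    exact D.sg_move _ x y (by rw [add_comm]; exact D.up_iter (hn x) _) hy r g hg h
  · have := D.sg_add (n := 0) (x := x) hx (n x)
    rw [zero_add] at this
    change 1 ∈ D.sg (n x) x
    rw [this]
    exact ⟨by simpa using hx, D.one⟩

variable {D}

theorem Cls.eq {x : X} {T U : Set G} (a : D.Cls x T) (b : D.Cls x U) {g : G} (h1 : g ∈ T)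
    (h2 : g ∈ U) : T = U :=
  Set.ext fun _ => ⟨fun h => b.sat h2 (a.mem h) (a.rel h h1), fun h => a.sat h1 (b.mem h) (b.rel h h2)⟩

theorem Sec.spread {σ τ : X → Set G} (a : D.Sec σ) (b : D.Sec τ) {x y : X} (r : D.r1 x y)
    (e : σ x = τ x) : σ y = τ y := by
  obtain ⟨g, hg⟩ := (a.cls x).ne
  obtain ⟨d, h1, h2⟩ := D.deep ((a.cls x).mem hg)
  have d1 := (a.cls x).sat hg (h2 _ (D.tri (D.refl _) (D.refl _))) h1
  have d2 := h2 _ (D.tri r (D.refl _))
  exact (a.cls y).eq (b.cls y) (a.move r d1 d2) (b.move r (e ▸ d1) d2)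

theorem Sec.uniq {σ τ : X → Set G} (a : D.Sec σ) (b : D.Sec τ) {x : X} (e : σ x = τ x) (y : X) :
    σ y = τ y := by
  induction D.join x y with
  | refl => exact e
  | tail _ r ih => exact a.spread b r ih

theorem Sec.pull {σ : X → Set G} (a : D.Sec σ) (s : G) :
    D.Sec fun x => {g | g * s⁻¹ ∈ σ (s • x)} := by
  refine ⟨fun x => ⟨?_, fun h => ?_, fun h1 h2 => ?_, fun h1 h2 h3 => ?_⟩, fun r h1 h2 => ?_⟩
  · obtain ⟨g, hg⟩ := (a.cls (s • x)).ne
    exact ⟨g * s, by simpa using hg⟩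
  · simpa [mul_smul] using (a.cls _).mem h
  · simpa [mul_assoc] using (a.cls _).rel h1 h2
  · exact (a.cls _).sat h1 (by simpa [mul_smul] using h2) (by simpa [mul_assoc] using h3)
  · exact a.move (D.inv1 s r) h1 (by simpa [mul_smul] using h2)

/-- The criterion: if `G` is generated by elements of `S` that move some point of `N` into `N`,
then only elements of `S` do so, and the translates of `N` cover. -/
theorem main (D : Data G X) (T : Set G) (hT : Subgroup.closure T = ⊤)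
    (h : ∀ s ∈ T, s ∈ D.S ∧ ∃ x ∈ D.N, s • x ∈ D.N) :
    (∀ (g : G) (x : X), x ∈ D.N → g • x ∈ D.N → g ∈ D.S) ∧ ∀ x : X, ∃ g : G, g • x ∈ D.N := by
  obtain ⟨σ, a, h1⟩ := D.exists_sec
  refine ⟨fun g x hx hg => ?_, fun x => (a.cls x).ne.imp fun g hg => (a.cls x).mem hg⟩
  have key : ∀ s : G, ∀ y, σ y = {g | g * s⁻¹ ∈ σ (s • y)} := fun s => by
    have : s ∈ Subgroup.closure T := hT ▸ Subgroup.mem_top s
    induction this using Subgroup.closure_induction with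
    | mem s hs =>
      obtain ⟨b, x, c1, c2⟩ := h s hs
      refine a.uniq (a.pull s) (x := x) ((a.cls x).eq ((a.pull s).cls x) (g := s)
        ((a.cls x).sat (h1 x c1) c2 (by simpa using b)) ?_)
      simpa using h1 _ c2
    | one => intro y; simp
    | mul s t _ _ hs ht =>
      intro y
      rw [ht y]
      ext g
      rw [Set.mem_ofPred_eq, hs (t • y)]
      simp [mul_smul, mul_assoc]
    | inv s _ hs =>
      intro y
      ext g
      rw [Set.mem_ofPred_eq, hs (s⁻¹ • y)]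
      simp
  have : g ∈ σ x := by rw [key g x]; simpa using h1 _ hg
  simpa using (a.cls x).rel this (h1 x hx)

end Data
end Pool.Agent.Lib.MP_743898_gtN
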