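import Pool.Agent.Lib.MP_743898_gt.CDefsB

set_option autoImplicit false

/-! One more definition for the classification statement. -/

namespace Pool.Agent.Lib.MP_743898_gtN

open Pool.Agent.Lib.MP_743898_gt.Cl Complex

/-- The group generated by `z ↦ iz` and `z ↦ 1 + 1/(cz)` for `c = (1 + i)(1 + √2/2)`. -/
noncomputable def grpN : Subgroup PSL := fam4 ((1 + I) * (1 + (√2 : ℝ) / 2))⁻¹

end Pool.Agent.Lib.MP_743898_gtN
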