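import Pool.Agent.Lib.MP_743898_gtN.Lat

set_option autoImplicit false

/-! The certificate for the parameter `(1 + √2) e^(πi/4)`. -/

namespace Pool.Agent.Lib.MP_743898_gtN

open Pool.Agent.Lib.MP_743898_gt Pool.Agent.Lib.MP_743898_gt.Cl M2 Complex

/-- integers of the eighth cyclotomic field -/
structure Z8 where
  a : ℤ
  b : ℤ
  c : ℤ
  d : ℤ
  deriving DecidableEq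

namespace Z8
def add (x y : Z8) : Z8 := ⟨x.a + y.a, x.b + y.b, x.c + y.c, x.d + y.d⟩
def neg (x : Z8) : Z8 := ⟨-x.a, -x.b, -x.c, -x.d⟩
def mul (x y : Z8) : Z8 :=
  ⟨x.a * y.a - (x.b * y.d + x.c * y.c + x.d * y.b), x.a * y.b + x.b * y.a - (x.c * y.d + x.d * y.c),
   x.a * y.c + x.b * y.b + x.c * y.a - x.d * y.d, x.a * y.d + x.b * y.c + x.c * y.b + x.d * y.a⟩
def nA (x : Z8) : ℤ := x.a * x.a + x.b * x.b + x.c * x.c + x.d * x.d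
def nB (x : Z8) : ℤ := x.a * x.b + x.b * x.c + x.c * x.d - x.a * x.d
def ipow : ℕ → Z8
  | 0 => ⟨1, 0, 0, 0⟩
  | k + 1 => (ipow k).mul ⟨0, 0, 1, 0⟩
end Z8

/-- `e^(πi/4)` -/
noncomputable def z8 : ℂ := ⟨√2 / 2, √2 / 2⟩

theorem s2 : (√2 : ℝ) * √2 = 2 := Real.mul_self_sqrt (by norm_num)
theorem z8_sq : z8 ^ 2 = I := by
  apply Complex.ext <;> simp [z8, sq] <;> nlinarith [s2]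
theorem z8_four : z8 ^ 4 + 1 = 0 := by
  rw [show 4 = 2 * 2 by rfl, pow_mul, z8_sq, I_sq]; ring

noncomputable def e8 (x : Z8) : ℂ := x.a + x.b * z8 + x.c * z8 ^ 2 + x.d * z8 ^ 3

theorem e8_add (x y : Z8) : e8 (x.add y) = e8 x + e8 y := by
  simp only [e8, Z8.add]; push_cast; ring
theorem e8_neg (x : Z8) : e8 x.neg = -e8 x := by
  simp only [e8, Z8.neg]; push_cast; ring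
theorem e8_mul (x y : Z8) : e8 (x.mul y) = e8 x * e8 y := by
  simp only [e8, Z8.mul]; push_cast
  linear_combination (-(x.b * y.d + x.c * y.c + x.d * y.b : ℂ)
    - (x.c * y.d + x.d * y.c : ℂ) * z8 - (x.d * y.d : ℂ) * z8 ^ 2) * z8_four
theorem e8_nsq (x : Z8) : ‖e8 x‖ ^ 2 = x.nA + x.nB * √2 := by
  rw [← normSq_eq_norm_sq, e8, pow_succ z8 2, z8_sq, normSq_apply]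
  simp only [Z8.nA, Z8.nB]
  simp [z8]
  linear_combination ((x.b : ℝ) ^ 2 + (x.d : ℝ) ^ 2) / 2 * s2
theorem e8_gi (m n : ℤ) : e8 ⟨m, 0, n, 0⟩ = m + n * I := by simp [e8, z8_sq]
theorem e8_ipow (k : ℕ) : e8 (Z8.ipow k) = I ^ k := by
  induction k with
  | zero => simp [Z8.ipow, e8]
  | succ k ih => rw [Z8.ipow, e8_mul, ih, e8_gi, pow_succ]; simp

/-- sign test in the ring generated by `√2` -/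
def nn (A B : ℤ) : Bool :=
  decide ((0 ≤ A ∧ 0 ≤ B) ∨ (0 ≤ A ∧ 2 * B * B ≤ A * A) ∨ (0 ≤ B ∧ A * A ≤ 2 * B * B))

theorem nn_sound {A B : ℤ} (h : nn A B = true) : (0 : ℝ) ≤ A + B * √2 := by
  have r := Real.sqrt_nonneg 2
  rcases of_decide_eq_true h with ⟨a, b⟩ | ⟨a, b⟩ | ⟨a, b⟩
  · positivity
  · have a' : (0 : ℝ) ≤ A := by exact_mod_cast a
    have b' : (2 * B * B : ℝ) ≤ A * A := by exact_mod_cast b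
    have := abs_le_of_sq_le_sq' (a := B * √2) (b := A) (by nlinarith [s2]) a'
    linarith [this.1]
  · have a' : (0 : ℝ) ≤ B := by exact_mod_cast a
    have b' : (A * A : ℝ) ≤ 2 * B * B := by exact_mod_cast b
    have := abs_le_of_sq_le_sq' (a := (A : ℝ)) (b := B * √2) (by nlinarith [s2]) (by positivity)
    linarith [this.1]

/-- matrices -/
structure ZN where
  a : Z8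
  b : Z8
  c : Z8
  d : Z8
  deriving DecidableEq

namespace ZN
def mul (X Y : ZN) : ZN :=
  ⟨(X.a.mul Y.a).add (X.b.mul Y.c), (X.a.mul Y.b).add (X.b.mul Y.d),
   (X.c.mul Y.a).add (X.d.mul Y.c), (X.c.mul Y.b).add (X.d.mul Y.d)⟩
def adj (X : ZN) : ZN := ⟨X.d, X.b.neg, X.c.neg, X.a⟩
def det (X : ZN) : Z8 := (X.a.mul X.d).add (X.b.mul X.c).neg
def sc (u : Z8) (X : ZN) : ZN := ⟨u.mul X.a, u.mul X.b, u.mul X.c, u.mul X.d⟩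
def pm (k : ℕ) (m n : ℤ) : ZN := ⟨Z8.ipow k, ⟨m, 0, n, 0⟩, ⟨0, 0, 0, 0⟩, ⟨1, 0, 0, 0⟩⟩
end ZN

noncomputable def eN (X : ZN) : M2 := ⟨e8 X.a, e8 X.b, e8 X.c, e8 X.d⟩

theorem eN_mul (X Y : ZN) : eN (X.mul Y) = eN X * eN Y := by
  ext <;> simp [eN, ZN.mul, e8_add, e8_mul]
theorem eN_adj (X : ZN) : eN X.adj = adj (eN X) := by ext <;> simp [eN, ZN.adj, adj, e8_neg]
theorem eN_det (X : ZN) : det (eN X) = e8 X.det := by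
  simp [eN, ZN.det, det, e8_add, e8_mul, e8_neg, sub_eq_add_neg]
theorem eN_sc (u : Z8) (X : ZN) : eN (X.sc u) = sc (e8 u) (eN X) := by
  ext <;> simp [eN, ZN.sc, sc, e8_mul]
theorem eN_pm (k : ℕ) (m n : ℤ) : eN (ZN.pm k m n) = ⟨I ^ k, m + n * I, 0, 1⟩ := by
  ext <;> simp only [eN, ZN.pm, e8_ipow, e8_gi] <;> simp

/-- a certificate line -/
structure Ce where
  u : ℕ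
  s : ℕ
  k : ℕ
  m : ℤ
  n : ℤ
  j : ℕ
  k1 : ℕ
  m1 : ℤ
  n1 : ℤ
  k2 : ℕ
  m2 : ℤ
  n2 : ℤ
  w : Z8

def s0 : List ZN :=
  [⟨⟨0,0,0,0⟩,⟨1,0,0,0⟩,⟨1,1,1,0⟩,⟨0,0,0,0⟩⟩,
   ⟨⟨1,0,0,0⟩,⟨0,0,0,0⟩,⟨0,-1,-2,-1⟩,⟨1,0,0,0⟩⟩,
   ⟨⟨1,0,0,0⟩,⟨0,0,0,0⟩,⟨-1,-1,-1,0⟩,⟨1,0,0,0⟩⟩,
   ⟨⟨1,0,-1,-1⟩,⟨0,-1,-1,0⟩,⟨-2,-1,1,2⟩,⟨0,1,1,1⟩⟩,
   ⟨⟨-1,-1,0,1⟩,⟨1,0,-1,0⟩,⟨1,2,1,0⟩,⟨-1,-1,0,1⟩⟩]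

def certs : List Ce :=
  [⟨0,0,0,-1,-1,2,0,0,0,0,0,0,⟨1,1,1,0⟩⟩,
   ⟨0,0,0,-1,0,3,0,0,0,0,0,0,⟨1,1,1,0⟩⟩,
   ⟨0,0,0,-1,1,2,1,0,0,3,0,0,⟨1,1,1,0⟩⟩,
   ⟨0,0,0,0,-1,3,3,0,0,1,0,0,⟨1,1,1,0⟩⟩,
   ⟨0,0,0,0,0,0,0,0,0,0,0,0,⟨1,1,1,0⟩⟩,
   ⟨0,0,0,0,1,3,1,0,0,3,0,0,⟨1,1,1,0⟩⟩,
   ⟨0,0,0,1,-1,2,3,0,0,1,0,0,⟨1,1,1,0⟩⟩,
   ⟨0,0,0,1,0,3,2,0,0,2,0,0,⟨1,1,1,0⟩⟩,
   ⟨0,0,0,1,1,2,2,0,0,2,0,0,⟨1,1,1,0⟩⟩,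
   ⟨0,0,1,-1,-1,2,0,0,0,3,0,0,⟨-1,0,1,1⟩⟩,
   ⟨0,0,1,-1,0,3,0,0,0,3,0,0,⟨-1,0,1,1⟩⟩,
   ⟨0,0,1,-1,1,2,1,0,0,2,0,0,⟨-1,0,1,1⟩⟩,
   ⟨0,0,1,0,-1,3,3,0,0,0,0,0,⟨-1,0,1,1⟩⟩,
   ⟨0,0,1,0,0,0,3,0,0,0,0,0,⟨-1,0,1,1⟩⟩,
   ⟨0,0,1,0,1,3,1,0,0,2,0,0,⟨-1,0,1,1⟩⟩,
   ⟨0,0,1,1,-1,2,3,0,0,0,0,0,⟨-1,0,1,1⟩⟩,
   ⟨0,0,1,1,0,3,2,0,0,1,0,0,⟨-1,0,1,1⟩⟩,
   ⟨0,0,1,1,1,2,2,0,0,1,0,0,⟨-1,0,1,1⟩⟩,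
   ⟨0,0,2,-1,-1,2,0,0,0,2,0,0,⟨-1,-1,-1,0⟩⟩,
   ⟨0,0,2,-1,0,3,0,0,0,2,0,0,⟨-1,-1,-1,0⟩⟩,
   ⟨0,0,2,-1,1,2,1,0,0,1,0,0,⟨-1,-1,-1,0⟩⟩,
   ⟨0,0,2,0,-1,3,3,0,0,3,0,0,⟨-1,-1,-1,0⟩⟩,
   ⟨0,0,2,0,0,0,2,0,0,0,0,0,⟨-1,-1,-1,0⟩⟩,
   ⟨0,0,2,0,1,3,1,0,0,1,0,0,⟨-1,-1,-1,0⟩⟩,
   ⟨0,0,2,1,-1,2,3,0,0,3,0,0,⟨-1,-1,-1,0⟩⟩,
   ⟨0,0,2,1,0,3,2,0,0,0,0,0,⟨-1,-1,-1,0⟩⟩,
   ⟨0,0,2,1,1,2,2,0,0,0,0,0,⟨-1,-1,-1,0⟩⟩,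
   ⟨0,0,3,-1,-1,2,0,0,0,1,0,0,⟨1,0,-1,-1⟩⟩,
   ⟨0,0,3,-1,0,3,0,0,0,1,0,0,⟨1,0,-1,-1⟩⟩,
   ⟨0,0,3,-1,1,2,1,0,0,0,0,0,⟨1,0,-1,-1⟩⟩,
   ⟨0,0,3,0,-1,3,3,0,0,2,0,0,⟨1,0,-1,-1⟩⟩,
   ⟨0,0,3,0,0,0,1,0,0,0,0,0,⟨1,0,-1,-1⟩⟩,
   ⟨0,0,3,0,1,3,1,0,0,0,0,0,⟨1,0,-1,-1⟩⟩,
   ⟨0,0,3,1,-1,2,3,0,0,2,0,0,⟨1,0,-1,-1⟩⟩,
   ⟨0,0,3,1,0,3,2,0,0,3,0,0,⟨1,0,-1,-1⟩⟩,
   ⟨0,0,3,1,1,2,2,0,0,3,0,0,⟨1,0,-1,-1⟩⟩,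
   ⟨0,1,0,0,0,1,0,-1,-1,0,0,0,⟨1,0,0,0⟩⟩,
   ⟨0,1,1,0,0,1,0,-1,1,1,0,0,⟨1,0,0,0⟩⟩,
   ⟨0,1,2,0,0,1,0,1,1,2,0,0,⟨1,0,0,0⟩⟩,
   ⟨0,1,3,0,0,1,0,1,-1,3,0,0,⟨1,0,0,0⟩⟩,
   ⟨0,2,0,0,-1,4,3,0,0,3,0,1,⟨0,0,1,0⟩⟩,
   ⟨0,2,0,0,0,1,0,-1,0,0,0,0,⟨1,0,0,0⟩⟩,
   ⟨0,2,0,1,0,4,3,0,-1,2,0,0,⟨0,0,0,-1⟩⟩,
   ⟨0,2,1,0,0,1,0,0,1,1,0,0,⟨1,0,0,0⟩⟩,
   ⟨0,2,1,0,1,4,2,-1,0,2,0,0,⟨0,1,0,0⟩⟩,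
   ⟨0,2,1,1,0,4,2,0,0,3,0,1,⟨-1,0,0,0⟩⟩,
   ⟨0,2,2,-1,0,4,1,0,1,2,0,0,⟨0,0,0,1⟩⟩,
   ⟨0,2,2,0,0,1,0,1,0,2,0,0,⟨1,0,0,0⟩⟩,
   ⟨0,2,2,0,1,4,1,0,0,3,0,1,⟨0,0,-1,0⟩⟩,
   ⟨0,2,3,-1,0,4,0,0,0,3,0,1,⟨1,0,0,0⟩⟩,
   ⟨0,2,3,0,-1,4,0,1,0,2,0,0,⟨0,-1,0,0⟩⟩,
   ⟨0,2,3,0,0,1,0,0,-1,3,0,0,⟨1,0,0,0⟩⟩,
   ⟨0,3,0,0,0,3,3,-1,0,1,1,0,⟨1,1,1,0⟩⟩,
   ⟨0,3,0,1,0,3,3,0,-1,2,0,0,⟨-1,-1,0,1⟩⟩,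
   ⟨0,3,1,0,0,3,2,0,1,1,1,0,⟨-1,0,1,1⟩⟩,
   ⟨0,3,1,0,1,3,2,-1,0,2,0,0,⟨0,-1,-1,-1⟩⟩,
   ⟨0,3,2,-1,0,3,1,0,1,2,0,0,⟨1,1,0,-1⟩⟩,
   ⟨0,3,2,0,0,3,1,1,0,1,1,0,⟨-1,-1,-1,0⟩⟩,
   ⟨0,3,3,0,-1,3,0,1,0,2,0,0,⟨0,1,1,1⟩⟩,
   ⟨0,3,3,0,0,3,0,0,-1,1,1,0,⟨1,0,-1,-1⟩⟩,
   ⟨1,0,0,0,0,1,0,0,0,0,-1,-1,⟨1,0,0,0⟩⟩,
   ⟨1,0,1,0,0,1,0,0,0,3,-1,-1,⟨0,0,1,0⟩⟩,
   ⟨1,0,2,0,0,1,0,0,0,2,-1,-1,⟨-1,0,0,0⟩⟩,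
   ⟨1,0,3,0,0,1,0,0,0,1,-1,-1,⟨0,0,-1,0⟩⟩,
   ⟨1,1,2,0,0,0,2,0,0,0,0,0,⟨1,0,0,0⟩⟩,
   ⟨1,2,1,0,0,3,0,0,0,1,0,0,⟨1,0,0,0⟩⟩,
   ⟨1,2,2,0,0,3,3,0,0,3,0,0,⟨1,0,0,0⟩⟩,
   ⟨1,3,1,0,0,4,1,0,1,3,-1,0,⟨0,-1,0,0⟩⟩,
   ⟨1,3,3,0,-1,4,3,0,0,1,0,1,⟨0,0,0,1⟩⟩,
   ⟨2,0,0,0,-1,4,0,0,0,0,0,1,⟨1,0,0,0⟩⟩,
   ⟨2,0,0,0,0,1,0,0,0,0,-1,0,⟨1,0,0,0⟩⟩,
   ⟨2,0,0,1,0,4,1,0,1,0,0,0,⟨0,0,0,1⟩⟩,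
   ⟨2,0,1,0,-1,4,0,0,0,3,0,1,⟨0,0,1,0⟩⟩,
   ⟨2,0,1,0,0,1,0,0,0,3,-1,0,⟨0,0,1,0⟩⟩,
   ⟨2,0,1,1,0,4,1,0,1,3,0,0,⟨0,-1,0,0⟩⟩,
   ⟨2,0,2,0,-1,4,0,0,0,2,0,1,⟨-1,0,0,0⟩⟩,
   ⟨2,0,2,0,0,1,0,0,0,2,-1,0,⟨-1,0,0,0⟩⟩,
   ⟨2,0,2,1,0,4,1,0,1,2,0,0,⟨0,0,0,-1⟩⟩,
   ⟨2,0,3,0,-1,4,0,0,0,1,0,1,⟨0,0,-1,0⟩⟩,
   ⟨2,0,3,0,0,1,0,0,0,1,-1,0,⟨0,0,-1,0⟩⟩,
   ⟨2,0,3,1,0,4,1,0,1,1,0,0,⟨0,1,0,0⟩⟩,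
   ⟨2,1,2,0,0,3,1,0,0,1,0,0,⟨1,0,0,0⟩⟩,
   ⟨2,1,3,0,0,3,3,0,0,0,0,0,⟨1,0,0,0⟩⟩,
   ⟨2,2,0,1,-1,5,0,0,0,0,0,0,⟨1,0,0,0⟩⟩,
   ⟨2,2,1,0,0,2,1,0,0,0,0,0,⟨1,0,0,0⟩⟩,
   ⟨2,2,1,1,0,3,1,0,1,1,0,-1,⟨0,0,0,1⟩⟩,
   ⟨2,2,2,0,0,0,2,0,0,0,0,0,⟨1,0,0,0⟩⟩,
   ⟨2,2,3,0,-1,3,3,-1,0,3,1,0,⟨0,-1,0,0⟩⟩,
   ⟨2,2,3,0,0,2,0,0,0,3,0,0,⟨1,0,0,0⟩⟩,
   ⟨2,3,2,0,0,1,0,0,1,2,0,1,⟨-1,0,0,0⟩⟩,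
   ⟨2,3,3,0,-1,1,0,-1,0,2,0,0,⟨0,1,0,0⟩⟩,
   ⟨2,4,0,1,-1,3,2,-1,1,2,1,-1,⟨-1,0,0,0⟩⟩,
   ⟨2,4,1,1,0,3,2,-1,1,1,0,-1,⟨0,0,-1,0⟩⟩,
   ⟨2,4,2,0,0,3,2,-1,1,0,0,0,⟨1,0,0,0⟩⟩,
   ⟨2,4,3,0,-1,3,2,-1,1,3,1,0,⟨0,0,1,0⟩⟩,
   ⟨3,0,0,0,0,3,3,-1,0,0,1,0,⟨0,-1,-1,-1⟩⟩,
   ⟨3,0,0,0,1,3,0,0,0,0,0,-1,⟨1,1,1,0⟩⟩,
   ⟨3,0,1,0,0,3,3,-1,0,3,1,0,⟨1,1,0,-1⟩⟩,
   ⟨3,0,1,0,1,3,0,0,0,3,0,-1,⟨-1,0,1,1⟩⟩,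
   ⟨3,0,2,0,0,3,3,-1,0,2,1,0,⟨0,1,1,1⟩⟩,
   ⟨3,0,2,0,1,3,0,0,0,2,0,-1,⟨-1,-1,-1,0⟩⟩,
   ⟨3,0,3,0,0,3,3,-1,0,1,1,0,⟨-1,-1,0,1⟩⟩,
   ⟨3,0,3,0,1,3,0,0,0,1,0,-1,⟨1,0,-1,-1⟩⟩,
   ⟨3,1,0,0,0,4,3,-1,0,0,0,1,⟨0,-1,0,0⟩⟩,
   ⟨3,1,2,0,1,4,1,0,1,2,0,0,⟨0,0,0,1⟩⟩,
   ⟨3,2,0,0,0,1,0,-1,0,1,0,-1,⟨0,0,0,1⟩⟩,
   ⟨3,2,1,0,1,1,0,0,0,1,-1,0,⟨1,0,0,0⟩⟩,
   ⟨3,3,0,0,0,2,3,-1,0,0,0,-1,⟨0,-1,-1,-1⟩⟩,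
   ⟨3,3,1,0,1,0,3,-1,0,0,0,0,⟨-1,0,1,1⟩⟩,
   ⟨3,3,2,-1,1,2,1,0,0,2,0,0,⟨1,1,0,-1⟩⟩,
   ⟨3,3,3,0,0,5,0,0,0,2,0,0,⟨0,1,1,1⟩⟩,
   ⟨3,4,0,0,0,4,2,-1,0,3,0,1,⟨0,0,0,-1⟩⟩,
   ⟨3,4,1,0,1,4,2,-1,0,2,0,0,⟨0,1,0,0⟩⟩,
   ⟨3,4,2,-1,1,4,2,-1,0,1,-1,0,⟨0,0,0,1⟩⟩,
   ⟨3,4,3,-1,0,4,2,-1,0,0,-1,1,⟨0,-1,0,0⟩⟩,
   ⟨4,2,0,1,-1,3,2,-1,1,2,1,-1,⟨-1,0,0,0⟩⟩,
   ⟨4,2,1,1,0,3,1,0,1,2,1,-1,⟨0,0,-1,0⟩⟩,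
   ⟨4,2,2,0,0,3,0,0,0,2,1,-1,⟨1,0,0,0⟩⟩,
   ⟨4,2,3,0,-1,3,3,-1,0,2,1,-1,⟨0,0,1,0⟩⟩,
   ⟨4,3,0,1,-1,4,3,-1,0,2,0,1,⟨0,0,0,1⟩⟩,
   ⟨4,3,1,1,0,4,2,-1,1,2,0,1,⟨0,-1,0,0⟩⟩,
   ⟨4,3,2,0,0,4,1,0,1,2,0,1,⟨0,0,0,-1⟩⟩,
   ⟨4,3,3,0,-1,4,0,0,0,2,0,1,⟨0,1,0,0⟩⟩,
   ⟨4,4,0,1,-1,0,0,-1,1,0,0,0,⟨-1,0,0,0⟩⟩,
   ⟨4,4,1,1,0,0,3,0,1,0,0,0,⟨0,0,-1,0⟩⟩,
   ⟨4,4,2,0,0,0,2,0,0,0,0,0,⟨1,0,0,0⟩⟩,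
   ⟨4,4,3,0,-1,0,1,-1,0,0,0,0,⟨0,0,1,0⟩⟩]

def icerts : List Ce :=
  [⟨0,0,0,0,0,1,0,0,0,0,0,0,⟨-1,0,0,0⟩⟩,
   ⟨0,0,0,0,0,2,2,0,0,2,0,0,⟨1,0,0,0⟩⟩,
   ⟨0,0,0,0,0,3,2,0,0,2,0,0,⟨1,0,0,0⟩⟩,
   ⟨0,0,0,0,0,4,1,0,1,1,0,1,⟨0,0,1,0⟩⟩,
   ⟨0,0,0,0,0,5,0,1,-1,0,1,-1,⟨-1,0,0,0⟩⟩]

def Ce.val (c : Ce) : ZN :=
  (((ZN.pm c.k1 c.m1 c.n1).mul ((ZN.pm 0 0 0 :: s0).getD c.j (ZN.pm 0 0 0))).mul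
    (ZN.pm c.k2 c.m2 c.n2)).sc c.w

theorem Ce.inS (c : Ce) : InS (s0.map eN) (eN c.val) := by
  rw [Ce.val, eN_sc, eN_mul, eN_mul, eN_pm, eN_pm]
  refine ((InS.base ?_).lr (pp_mk _ ⟨_, _, rfl⟩) (pp_mk _ ⟨_, _, rfl⟩)).sc _
  have e : eN (ZN.pm 0 0 0) = one2 := by rw [eN_pm]; simp [one2]
  rcases lt_or_ge c.j (ZN.pm 0 0 0 :: s0).length with h | h
  · rw [List.getD_eq_getElem _ _ h]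
    rcases List.mem_cons.1 (List.getElem_mem h) with h1 | h1
    · exact Or.inl ((congrArg eN h1).trans e)
    · exact Or.inr (List.mem_map_of_mem h1)
  · rw [List.getD_eq_default _ _ h]; exact Or.inl e

/-- exponent `e` with `|det| = (1 + √2)^e` -/
def ex (X : ZN) : ℤ := if X.det.nA = 1 then 0 else 1

theorem facts : ∀ s ∈ s0, (s.det.nA = 1 + 2 * ex s ∧ s.det.nB = 2 * ex s ∧ (ex s = 0 ∨ ex s = 1)) ∧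
    nn (5 * s.c.nA - 12) (5 * s.c.nB - 12 * ex s) = true ∧
    nn (s.c.nA - 2 * s.a.nA) (s.c.nB - 2 * s.a.nB) = true ∧
    nn (s.c.nA - 2 * s.d.nA) (s.c.nB - 2 * s.d.nB) = true ∧
    icerts.any (fun c => decide (c.val = s.adj)) = true := by decide +kernel

def rg : List ℤ := [-2, -1, 0, 1, 2]

def chk (u s : ℕ) (k : ℕ) (m n : ℤ) : Bool :=
  let U := s0.getD u (ZN.pm 0 0 0)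
  let S := s0.getD s (ZN.pm 0 0 0)
  let X := (U.mul (ZN.pm k m n)).mul S
  nn (729 * X.c.nA - 10000 * (1 + 2 * ex U * ex S)) (729 * X.c.nB - 10000 * (ex U + ex S)) ||
    certs.any fun c => c.u == u && c.s == s && c.k == k && c.m == m && c.n == n && decide (c.val = X)

theorem chk_all : ∀ u < 5, ∀ s < 5, ∀ k < 4, ∀ m ∈ rg, ∀ n ∈ rg, chk u s k m n = true := by
  decide +kernel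

theorem norm_det {s : ZN} (h : s ∈ s0) : ‖det (eN s)‖ = 1 + ex s * √2 := by
  obtain ⟨⟨a, b, c⟩, -⟩ := facts s h
  have r := Real.sqrt_nonneg 2
  rw [eN_det, ← sq_eq_sq₀ (norm_nonneg _) (by rcases c with c | c <;> rw [c] <;> positivity),
    e8_nsq, a, b]
  rcases c with c | c <;> rw [c] <;> push_cast <;> nlinarith [s2]

theorem s2_lo : (1.414 : ℝ) ≤ √2 := by nlinarith [s2, Real.sqrt_nonneg 2]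
theorem s2_hi : √2 ≤ (1.4143 : ℝ) := by nlinarith [s2, Real.sqrt_nonneg 2]

theorem bounds {s : ZN} (h : s ∈ s0) : 12 / 5 * ‖det (eN s)‖ ≤ ‖(eN s).c‖ ^ 2 ∧
    ‖(eN s).a‖ ≤ 0.7072 * ‖(eN s).c‖ ∧ ‖(eN s).d‖ ≤ 0.7072 * ‖(eN s).c‖ := by
  obtain ⟨-, a, b, c, -⟩ := facts s h
  have a' := nn_sound a
  have b' := nn_sound b
  have c' := nn_sound c
  push_cast at a' b' c'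
  have e1 := e8_nsq s.c
  have e2 := e8_nsq s.a
  have e3 := e8_nsq s.d
  refine ⟨?_, abs_le_of_sq_le_sq' ?_ (by positivity) |>.2, abs_le_of_sq_le_sq' ?_ (by positivity) |>.2⟩
  · rw [norm_det h]; change _ ≤ ‖e8 s.c‖ ^ 2; linarith
  · change ‖e8 s.a‖ ^ 2 ≤ (0.7072 * ‖e8 s.c‖) ^ 2; nlinarith [sq_nonneg ‖e8 s.c‖]
  · change ‖e8 s.d‖ ^ 2 ≤ (0.7072 * ‖e8 s.c‖) ^ 2; nlinarith [sq_nonneg ‖e8 s.c‖]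

/-- the parameter -/
noncomputable def c0 : ℂ := 1 + I + z8

theorem e8_c0 : e8 ⟨1, 1, 1, 0⟩ = c0 := by simp [e8, c0, z8_sq]; ring

theorem nsq_c0 : ‖c0‖ ^ 2 = 3 + 2 * √2 := by rw [← e8_c0, e8_nsq]; simp [Z8.nA, Z8.nB]

theorem norm_c0 : ‖c0‖ = 1 + √2 := by
  rw [← sq_eq_sq₀ (norm_nonneg _) (by positivity), nsq_c0]; nlinarith [s2]

theorem c0_ne : c0 ≠ 0 := by
  rw [← norm_ne_zero_iff, norm_c0]; positivity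

theorem h_mem : (⟨0, 1, c0, 0⟩ : M2) ∈ s0.map eN :=
  List.mem_map.2 ⟨⟨⟨0,0,0,0⟩,⟨1,0,0,0⟩,⟨1,1,1,0⟩,⟨0,0,0,0⟩⟩, by decide, by
    ext <;> simp only [eN, e8_c0] <;> simp [e8]⟩

theorem l_mem : (⟨1, 0, -c0, 1⟩ : M2) ∈ s0.map eN :=
  List.mem_map.2 ⟨⟨⟨1,0,0,0⟩,⟨0,0,0,0⟩,⟨-1,-1,-1,0⟩,⟨1,0,0,0⟩⟩, by decide, by
    ext <;> simp [eN, e8, c0, z8_sq]; ring⟩

theorem certA : ∀ s ∈ s0.map eN, ∀ u ∈ s0.map eN, ∀ P, PP P →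
    ‖(u * P * s).c‖ ^ 2 * (27 / 100) ^ 2 < ‖det u‖ * ‖det s‖ → InS (s0.map eN) (u * P * s) := by
  intro s hs u hu P hP hn
  obtain ⟨S, hS, rfl⟩ := List.mem_map.1 hs
  obtain ⟨U, hU, rfl⟩ := List.mem_map.1 hu
  obtain ⟨k, m, n, hk, rfl⟩ := hP
  by_cases hb : m ∈ rg ∧ n ∈ rg
  · obtain ⟨i, hi, rfl⟩ := List.getElem_of_mem hS
    obtain ⟨j, hj, rfl⟩ := List.getElem_of_mem hU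
    have := chk_all j hj i hi k hk m hb.1 n hb.2
    simp only [chk, List.getD_eq_getElem _ _ hi, List.getD_eq_getElem _ _ hj, Bool.or_eq_true,
      List.any_eq_true, Bool.and_eq_true, decide_eq_true_eq] at this
    rw [← eN_pm, ← eN_mul, ← eN_mul] at hn ⊢
    rcases this with h | ⟨c, -, -, h⟩
    · exfalso
      have h' := nn_sound h
      rw [norm_det hS, norm_det hU] at hn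
      change ‖e8 _‖ ^ 2 * _ < _ at hn
      rw [e8_nsq] at hn
      push_cast at h'
      have : (1 + (ex s0[j] : ℝ) * √2) * (1 + (ex s0[i] : ℝ) * √2) = 1 + 2 * ex s0[j] * ex s0[i] +
          (ex s0[j] + ex s0[i]) * √2 := by linear_combination (ex s0[j] : ℝ) * ex s0[i] * s2
      linarith
    · exact h ▸ c.inS
  · exfalso
    obtain ⟨a1, a2, -⟩ := bounds hS
    obtain ⟨b1, -, b2⟩ := bounds hU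
    have l3 : 3 ≤ ‖(m + n * I : ℂ)‖ := by
      rw [not_and_or] at hb
      rcases hb with h | h
      · refine le_trans ?_ (abs_re_le_norm _)
        have : (3 : ℤ) ≤ |m| := by
          simp only [rg, List.mem_cons, List.not_mem_nil, or_false] at h
          rcases abs_cases m with ⟨e, _⟩ | ⟨e, _⟩ <;> omega
        simpa using (by exact_mod_cast this : (3 : ℝ) ≤ |(m : ℝ)|)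
      · refine le_trans ?_ (abs_im_le_norm _)
        have : (3 : ℤ) ≤ |n| := by
          simp only [rg, List.mem_cons, List.not_mem_nil, or_false] at h
          rcases abs_cases n with ⟨e, _⟩ | ⟨e, _⟩ <;> omega
        simpa using (by exact_mod_cast this : (3 : ℝ) ≤ |(n : ℝ)|)
    generalize eN S = X at *
    generalize eN U = Y at *
    generalize (m + n * I : ℂ) = l at *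
    have e : Y.c * X.c * l = (Y * ⟨I ^ k, l, 0, 1⟩ * X).c - Y.c * I ^ k * X.a - Y.d * X.c := by
      simp; ring
    have t1 : ‖Y.c‖ * ‖X.c‖ * ‖l‖ ≤ ‖(Y * ⟨I ^ k, l, 0, 1⟩ * X).c‖ + ‖Y.c‖ * ‖X.a‖ + ‖Y.d‖ * ‖X.c‖ := by
      rw [← norm_mul, ← norm_mul, e]
      refine (norm_sub_le _ _).trans (add_le_add ((norm_sub_le _ _).trans (le_of_eq ?_)) (le_of_eq ?_))
      · simp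
      · simp
    generalize ‖(Y * ⟨I ^ k, l, 0, 1⟩ * X).c‖ = q at *
    have x0 := norm_nonneg X.c
    have y0 := norm_nonneg Y.c
    have t2 : 1.58 * (‖Y.c‖ * ‖X.c‖) ≤ q := by
      nlinarith [mul_le_mul_of_nonneg_left a2 y0, mul_le_mul_of_nonneg_right b2 x0,
        mul_le_mul_of_nonneg_left l3 (mul_nonneg y0 x0), mul_nonneg y0 x0]
    have t3 := pow_le_pow_left₀ (by positivity) t2 2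
    have t4 := mul_le_mul b1 a1 (by positivity) (by positivity)
    nlinarith [mul_nonneg (norm_nonneg (det X)) (norm_nonneg (det Y))]

theorem quad (z : ℂ) : ∃ P : M2, PP P ∧ 0 ≤ (P.a * z + P.b).re ∧ (P.a * z + P.b).re ≤ 1 / 2 ∧
    -(1 / 2) ≤ (P.a * z + P.b).im ∧ (P.a * z + P.b).im ≤ 0 := by
  have a1 := abs_le.1 (abs_sub_round z.re)
  have a2 := abs_le.1 (abs_sub_round z.im)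
  have g : ∀ k, PP ⟨I ^ k, -(I ^ k * ((round z.re : ℤ) + (round z.im : ℤ) * I)), 0, 1⟩ :=
    fun k => pp_mk k (gi_mul (gi_pow k) ⟨_, _, rfl⟩).neg
  rcases le_total 0 (z.re - round z.re) with h | h <;>
    rcases le_total 0 (z.im - round z.im) with h' | h'
  · refine ⟨_, g 3, ?_⟩; simp [pow_succ]; refine ⟨?_, ?_, ?_, ?_⟩ <;> linarith
  · refine ⟨_, g 0, ?_⟩; simp; refine ⟨?_, ?_, ?_, ?_⟩ <;> linarith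
  · refine ⟨_, g 2, ?_⟩; simp; refine ⟨?_, ?_, ?_, ?_⟩ <;> linarith
  · refine ⟨_, g 1, ?_⟩; simp; refine ⟨?_, ?_, ?_, ?_⟩ <;> linarith

theorem ins_r {L : List M2} {s P : M2} (h : s ∈ L) (hP : PP P) : InS L (s * P) := by
  have := (InS.base (Or.inr h)).lr PP.one hP
  rwa [one_mu] at this

theorem ar1 {r x : ℝ} (l1 : 1.414 ≤ r) (h : x ≤ 1 / 3) :
    (201 / 200) ^ 2 * ((3 + 2 * r) * x + (3 + 2 * r) * ((201 / 200) ^ 2 * (27 / 100)) ^ 2) ≤ 1 + r := by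
  nlinarith

theorem ar2 {r x y : ℝ} (l1 : 1.414 ≤ r) (l2 : r ≤ 1.4143) (a1 : 0 ≤ x) (a2 : x ≤ 1 / 2)
    (a3 : -(1 / 2) ≤ y) (a4 : y ≤ 0) (h : 1 / 3 ≤ x ^ 2 + y ^ 2) :
    (201 / 200) ^ 2 * ((3 + 2 * r) * ((x - (1 - r / 2)) * (x - (1 - r / 2)) +
      (y - -(1 - r / 2)) * (y - -(1 - r / 2))) +
      (3 + 2 * r) * ((201 / 200) ^ 2 * (27 / 100)) ^ 2) ≤ 1 := by
  have x1 : 0.288 ≤ x := by nlinarith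
  have x2 : y ≤ -0.288 := by nlinarith
  have y1 : (x - (1 - r / 2)) * (x - (1 - r / 2)) ≤ 0.043 := by nlinarith
  have y2 : (y - -(1 - r / 2)) * (y - -(1 - r / 2)) ≤ 0.043 := by nlinarith
  nlinarith

theorem cert0 : Cert c0 (s0.map eN) (201 / 200) (27 / 100) where
  c0 := c0_ne
  K1 := by norm_num
  t0 := by norm_num
  t1 := by norm_num
  ct := by rw [norm_c0]; nlinarith [s2_hi]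
  h := h_mem
  inv := fun s hs => by
    obtain ⟨S, hS, rfl⟩ := List.mem_map.1 hs
    obtain ⟨c, -, h⟩ := List.any_eq_true.1 (facts S hS).2.2.2.2
    rw [← eN_adj, ← of_decide_eq_true h]
    exact c.inS
  big := fun s hs => by
    obtain ⟨S, hS, rfl⟩ := List.mem_map.1 hs
    nlinarith [(bounds hS).1, norm_nonneg (det (eN S))]
  A := certA
  B := fun z => by
    obtain ⟨P, hP, a1, a2, a3, a4⟩ := quad z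
    have nd := hP.norm_det
    have l1 := s2_lo
    have l2 := s2_hi
    have q := s2
    obtain ⟨k, m, n, -, e⟩ := id hP
    have pa : ‖P.a‖ = 1 := by simp [e]
    have pc : P.c = 0 := by simp [e]
    have pd : P.d = 1 := by simp [e]
    obtain ⟨w, hw⟩ : ∃ w, w = P.a * z + P.b := ⟨_, rfl⟩
    rw [← hw] at a1 a2 a3 a4
    have nw : ‖w‖ ^ 2 = w.re ^ 2 + w.im ^ 2 := by rw [← normSq_eq_norm_sq, normSq_apply]; ring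
    rcases le_total (w.re ^ 2 + w.im ^ 2) (1 / 3) with h | h
    · refine ⟨(⟨0, 1, c0, 0⟩ : M2) * P, W3.mul (w3_h c0_ne) (PP.w3 c0 hP),
        ins_r h_mem hP, ?_⟩
      have e1 : (⟨0, 1, c0, 0⟩ * P : M2).c * z + (⟨0, 1, c0, 0⟩ * P : M2).d = c0 * w := by
        simp [hw]; ring
      have e2 : ‖(⟨0, 1, c0, 0⟩ * P : M2).c‖ = ‖c0‖ := by simp [pa]
      rw [e1, e2, det_mul, norm_mul, norm_mul, nd, mul_pow, nw]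
      simp only [det, mul_zero, one_mul, zero_sub, norm_neg, mul_one]
      rw [nsq_c0, norm_c0]
      exact ar1 l1 h
    · have w3 : W3 c0 ⟨1, 0, -c0, 1⟩ := by
        refine W3.of_sc (u := -c0) ?_
        convert ((w3_h c0_ne).mul (w3_t c0)).mul (w3_h c0_ne).adj using 1
        ext <;> simp [sc, tl, adj]
      refine ⟨(⟨1, 0, -c0, 1⟩ : M2) * P, W3.mul w3 (PP.w3 c0 hP),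
        ins_r l_mem hP, ?_⟩
      have e1 : (⟨1, 0, -c0, 1⟩ * P : M2).c * z + (⟨1, 0, -c0, 1⟩ * P : M2).d =
          -c0 * (w - ⟨1 - √2 / 2, -(1 - √2 / 2)⟩) := by
        have : c0 * ⟨1 - √2 / 2, -(1 - √2 / 2)⟩ = 1 := by
          apply Complex.ext <;> simp [c0, z8] <;> nlinarith
        simp only [mul_c, mul_d, hw, pc, pd]
        linear_combination -this
      have e2 : ‖(⟨1, 0, -c0, 1⟩ * P : M2).c‖ = ‖c0‖ := by simp [pa, pc]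
      rw [e1, e2, det_mul, norm_mul, norm_mul, nd, mul_pow, norm_neg, nsq_c0,
        ← normSq_eq_norm_sq, normSq_apply]
      simp only [det, mul_one, zero_mul, sub_zero, norm_one, sub_re, sub_im]
      exact ar2 l1 l2 a1 a2 a3 a4 h

theorem orb_c0 : IsOrbifoldGroup (fam4 c0⁻¹) := cert0.orb

theorem not_gi_c0 : ¬ GI c0 := by
  rintro ⟨m, n, h⟩
  have := congrArg Complex.re h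
  simp [c0, z8] at this
  have a : (1 : ℝ) < m := by linarith [s2_lo]
  have b : (m : ℝ) < 2 := by linarith [s2_hi]
  have a' : 1 < m := by exact_mod_cast a
  have b' : m < 2 := by exact_mod_cast b
  omega

end Pool.Agent.Lib.MP_743898_gtN
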