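import Pool.Agent.Lib.MP_743898_gtN.Crit
import Pool.Agent.Lib.MP_743898_gt.CComm

set_option autoImplicit false

/-! The criterion for a horoball in hyperbolic 3-space. -/

namespace Pool.Agent.Lib.MP_743898_gtN

open Pool.Agent.Lib.MP_743898_gt Pool.Agent.Lib.MP_743898_gt.Cl

/-- the denominator of the action -/
noncomputable def den (A : SL) (z : ℂ) (t : ℝ) : ℝ :=
  ‖A.1 1 0 * z + A.1 1 1‖ ^ 2 + ‖A.1 1 0‖ ^ 2 * t ^ 2

theorem act_snd (A : SL) (p : ℂ × ℝ) : (act A p).2 = p.2 / den A p.1 p.2 := rfl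

theorem den_pos (A : SL) (z : ℂ) {t : ℝ} (ht : 0 < t) : 0 < den A z t := by
  unfold den
  by_cases h : A.1 1 0 = 0
  · have h1 : A.1 1 1 ≠ 0 := by
      intro h1
      have := A.2
      rw [Matrix.det_fin_two, h, h1] at this
      simp at this
    simp only [h, zero_mul, zero_add, norm_zero]
    have := norm_pos_iff.2 h1
    positivity
  · have := norm_pos_iff.2 h
    positivity

/-- the upper half-space -/
def H3 : Type := {p : ℂ × ℝ // 0 < p.2}

noncomputable instance : MulAction SL H3 where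
  smul A p := ⟨act A p.1, div_pos p.2 (den_pos A _ p.2)⟩
  one_smul p := Subtype.ext (act_one p.1)
  mul_smul A B p := Subtype.ext (act_mul A B p.2)

/-- inverse height of the image -/
noncomputable def ih (A : SL) (p : H3) : ℝ := den A p.1.1 p.1.2 / p.1.2

theorem ih_pos (A : SL) (p : H3) : 0 < ih A p := div_pos (den_pos A _ p.2) p.2

theorem ih_eq (A : SL) (p : H3) : ih A p = ((A • p).1.2)⁻¹ := by
  change _ = (p.1.2 / den A p.1.1 p.1.2)⁻¹
  rw [inv_div, ih]

theorem ih_mul (A B : SL) (p : H3) : ih A (B • p) = ih (A * B) p := by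
  rw [ih_eq, ih_eq, mul_smul]

/-- closeness -/
def Close (K : ℝ) (p q : H3) : Prop := ∀ A : SL, ih A p ≤ K * ih A q ∧ ih A q ≤ K * ih A p

/-- the vertical flow -/
def upw (K : ℝ) (hK : 1 ≤ K) (p : H3) : H3 := ⟨(p.1.1, K * p.1.2), mul_pos (by linarith) p.2⟩

theorem ih_one (p : H3) : ih 1 p = (p.1.2)⁻¹ := by rw [ih_eq, one_smul]

theorem ih_up {K : ℝ} (hK : 1 ≤ K) (A : SL) (p : H3) :
    K * ih A (upw K hK p) = ih A p + (K ^ 2 - 1) * ‖A.1 1 0‖ ^ 2 * p.1.2 := by
  have := p.2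
  have : K ≠ 0 := by linarith
  simp only [ih, upw, den]
  field_simp
  ring

theorem c_le_ih (A : SL) (p : H3) : ‖A.1 1 0‖ ^ 2 * p.1.2 ≤ ih A p := by
  have := p.2
  rw [ih, le_div_iff₀ this, den]
  nlinarith [sq_nonneg ‖A.1 1 0 * p.1.1 + A.1 1 1‖]

theorem up_iter {K : ℝ} (hK : 1 ≤ K) (p : H3) (n : ℕ) :
    ((upw K hK)^[n] p).1 = (p.1.1, K ^ n * p.1.2) := by
  induction n with
  | zero => simp
  | succ n ih => rw [Function.iterate_succ_apply']; simp only [upw, ih]; rw [pow_succ']; ring_nf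

theorem close_step {K : ℝ} (hK : 1 ≤ K) (p : H3) : Close K p (upw K hK p) := fun A => by
  have e := ih_up hK A p
  have h1 := c_le_ih A p
  have h2 := ih_pos A p
  have h3 : 0 ≤ ‖A.1 1 0‖ ^ 2 * p.1.2 := mul_nonneg (sq_nonneg _) p.2.le
  have h4 : 0 ≤ K ^ 2 - 1 := by nlinarith
  constructor
  · nlinarith
  · refine le_of_mul_le_mul_left ?_ (show 0 < K by linarith)
    nlinarith

theorem ih_up_le {K : ℝ} (hK : 1 ≤ K) {p q : H3} (h : Close K p q) (A : SL) :
    ih A (upw K hK p) ≤ K * ih A (upw K hK q) := by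
  have e1 := ih_up hK A p
  have e2 := ih_up hK A q
  have h1 := (h 1).2
  rw [ih_one, ih_one] at h1
  have hp := p.2
  have hq := q.2
  have h2 : p.1.2 ≤ K * q.1.2 := by
    rw [← div_eq_mul_inv, le_div_iff₀ hp, inv_mul_le_iff₀ hq] at h1
    linarith
  have h4 : 0 ≤ (K ^ 2 - 1) * ‖A.1 1 0‖ ^ 2 := mul_nonneg (by nlinarith) (sq_nonneg _)
  refine le_of_mul_le_mul_left ?_ (show 0 < K by linarith)
  rw [e1, e2]
  nlinarith [(h A).1, mul_le_mul_of_nonneg_left h2 h4]

theorem Close.symm {K : ℝ} {p q : H3} (h : Close K p q) : Close K q p := fun A => (h A).symm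

/-- points at the same large height are close -/
theorem ih_far {K : ℝ} (hK : 1 < K) (A : SL) (z w : ℂ) {t : ℝ}
    (h : K * ‖z - w‖ ^ 2 ≤ (K - 1) ^ 2 * t ^ 2) : den A z t ≤ K * den A w t := by
  unfold den
  have h1 : ‖A.1 1 0 * z + A.1 1 1‖ ≤ ‖A.1 1 0 * w + A.1 1 1‖ + ‖A.1 1 0‖ * ‖z - w‖ := by
    rw [← norm_mul]
    refine le_trans (le_of_eq ?_) (norm_add_le _ _)
    congr 1; ring
  have hx := norm_nonneg (A.1 1 0 * z + A.1 1 1)
  generalize ‖A.1 1 0 * z + A.1 1 1‖ = x at *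
  generalize ‖A.1 1 0 * w + A.1 1 1‖ = y at *
  generalize ‖z - w‖ = δ at *
  generalize ‖A.1 1 0‖ = c at *
  have h2 : x ^ 2 ≤ (y + c * δ) ^ 2 := pow_le_pow_left₀ hx h1 2
  refine le_of_mul_le_mul_left ?_ (show 0 < K - 1 by linarith)
  nlinarith [sq_nonneg ((K - 1) * y - c * δ), mul_le_mul_of_nonneg_left h (sq_nonneg c),
    mul_le_mul_of_nonneg_left h2 (show 0 ≤ K - 1 by linarith)]

theorem Close.mono {K L : ℝ} (hL : K ≤ L) {p q : H3} (h : Close K p q) : Close L p q := fun A =>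
  ⟨(h A).1.trans (mul_le_mul_of_nonneg_right hL (ih_pos _ _).le),
    (h A).2.trans (mul_le_mul_of_nonneg_right hL (ih_pos _ _).le)⟩

theorem chain_vert {K : ℝ} (hK : 1 < K) (n : ℕ) : ∀ (p : H3) (s : ℝ) (hs : 1 ≤ s), s ≤ K ^ n →
    Relation.ReflTransGen (Close K) p (upw s hs p) := by
  induction n with
  | zero => exact fun p s hs h => .single ((close_step hs p).mono (by rw [pow_zero] at h; linarith))
  | succ n ih =>
    intro p s hs h
    rcases le_total s K with h1 | h1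
    · exact .single ((close_step hs p).mono h1)
    · have k0 : 0 < K := by linarith
      have := ih (upw K hK.le p) (s / K) ((one_le_div k0).2 h1)
        (by rw [div_le_iff₀ k0, ← pow_succ]; exact h)
      refine .head (close_step hK.le p) ?_
      convert this using 1
      refine Subtype.ext (Prod.ext rfl ?_)
      simp only [upw]
      field_simp

theorem chain_symm {K : ℝ} {p q : H3} (h : Relation.ReflTransGen (Close K) p q) :
    Relation.ReflTransGen (Close K) q p := by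
  induction h with
  | refl => exact .refl
  | tail _ r ih => exact .head r.symm ih

theorem chain {K : ℝ} (hK : 1 < K) (p q : H3) : Relation.ReflTransGen (Close K) p q := by
  have hp := p.2
  have hq := q.2
  have v : ∀ (x : H3) (T : ℝ) (hT : x.1.2 ≤ T),
      Relation.ReflTransGen (Close K) x ⟨(x.1.1, T), x.2.trans_le hT⟩ := fun x T hT => by
    obtain ⟨n, hn⟩ := pow_unbounded_of_one_lt (T / x.1.2) hK
    have e : upw (T / x.1.2) ((one_le_div x.2).2 hT) x = ⟨(x.1.1, T), x.2.trans_le hT⟩ :=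
      Subtype.ext (Prod.ext rfl (div_mul_cancel₀ _ x.2.ne'))
    exact e ▸ chain_vert hK n x (T / x.1.2) ((one_le_div x.2).2 hT) hn.le
  obtain ⟨T, h1, h2, h3⟩ : ∃ T, p.1.2 ≤ T ∧ q.1.2 ≤ T ∧
      K * ‖p.1.1 - q.1.1‖ ^ 2 ≤ (K - 1) ^ 2 * T ^ 2 := by
    have k1 : 0 < K - 1 := by linarith
    have d0 := norm_nonneg (p.1.1 - q.1.1)
    have d1 : 0 ≤ K * ‖p.1.1 - q.1.1‖ / (K - 1) := by positivity
    refine ⟨p.1.2 + q.1.2 + K * ‖p.1.1 - q.1.1‖ / (K - 1), by linarith, by linarith, ?_⟩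
    have e : K * ‖p.1.1 - q.1.1‖ ≤ (K - 1) * (p.1.2 + q.1.2 + K * ‖p.1.1 - q.1.1‖ / (K - 1)) := by
      rw [mul_add, mul_div_cancel₀ _ k1.ne']
      nlinarith
    rw [← mul_pow]
    refine le_trans ?_ (pow_le_pow_left₀ (by positivity) e 2)
    nlinarith [sq_nonneg ‖p.1.1 - q.1.1‖]
  have T0 : 0 < T := hp.trans_le h1
  refine ((v p T h1).tail (c := ⟨(q.1.1, T), T0⟩) fun A => ?_).trans
    (chain_symm (v q T h2))
  simp only [ih, ← mul_div_assoc]
  exact ⟨div_le_div_of_nonneg_right (ih_far hK A _ _ h3) T0.le,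
    div_le_div_of_nonneg_right (ih_far hK A _ _ (by rwa [norm_sub_rev])) T0.le⟩

theorem exists_pt (A : SL) {t : ℝ} (ht : 0 < t) (h : ‖A.1 1 0‖ * t < 1) :
    ∃ p : H3, t < p.1.2 ∧ t < (A • p).1.2 := by
  by_cases hc : A.1 1 0 = 0
  · have d := den_pos A 0 ht
    have e : ∀ s, den A 0 s = den A 0 t := fun s => by simp [den, hc]
    have k : 0 < t * den A 0 t := mul_pos ht d
    refine ⟨⟨(0, t + 1 + t * den A 0 t), by positivity⟩, by simp only; linarith, ?_⟩
    change t < (t + 1 + t * den A 0 t) / den A 0 (t + 1 + t * den A 0 t)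
    rw [e (t + 1 + t * den A 0 t), lt_div_iff₀ d]
    linarith
  · have c0 := norm_pos_iff.2 hc
    have k : t < ‖A.1 1 0‖⁻¹ := by rw [← one_div, lt_div_iff₀ c0]; linarith
    refine ⟨⟨(-A.1 1 1 / A.1 1 0, ‖A.1 1 0‖⁻¹), inv_pos.2 c0⟩, k, ?_⟩
    change t < ‖A.1 1 0‖⁻¹ / den A (-A.1 1 1 / A.1 1 0) ‖A.1 1 0‖⁻¹
    have : den A (-A.1 1 1 / A.1 1 0) ‖A.1 1 0‖⁻¹ = 1 := by
      rw [den, mul_div_cancel₀ _ hc, neg_add_cancel, norm_zero]
      field_simp
      simp
    rwa [this, div_one]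

/-- The horoball criterion. -/
theorem horo (T : Set SL) (S : Set SL) {K t : ℝ} (hK : 1 < K) (ht : 0 < t) (one : (1 : SL) ∈ S)
    (inv : ∀ s ∈ S, s⁻¹ ∈ S) (hA : ∀ s ∈ S, ∀ u ∈ S, ‖(u * s).1 1 0‖ * t < 1 → u * s ∈ S)
    (hB : ∀ p : ℂ × ℝ, t < p.2 → ∃ s ∈ S, s ∈ Subgroup.closure T ∧ K ^ 2 * t < (act s p).2)
    (gen : ∀ s ∈ T, s ∈ S ∧ ‖s.1 1 0‖ * t < 1) :
    (∀ g ∈ Subgroup.closure T, ‖g.1 1 0‖ * t < 1 → g ∈ S) ∧
      ∀ p : ℂ × ℝ, 0 < p.2 → ∃ g ∈ Subgroup.closure T, t < (act g p).2 := by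
  have K0 : 0 < K := by linarith
  let D : Data (Subgroup.closure T) H3 :=
    { r1 := Close K
      r2 := Close (K ^ 2)
      φ := upw K hK.le
      N := {p | t < p.1.2}
      S := {g | g.1 ∈ S}
      refl := fun x A => by have := ih_pos A x; constructor <;> nlinarith
      symm := Close.symm
      tri := fun h1 h2 A => ⟨by nlinarith [(h1 A).1, (h2 A).1], by nlinarith [(h1 A).2, (h2 A).2]⟩
      inv1 := fun g _ _ h A => by simpa only [Subgroup.smul_def, ih_mul] using h _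
      inv2 := fun g _ _ h A => by simpa only [Subgroup.smul_def, ih_mul] using h _
      step := close_step hK.le
      contr := fun h A => ⟨ih_up_le hK.le h A, ih_up_le hK.le h.symm A⟩
      up := fun {x} h => by
        change t < K * x.1.2
        change t < x.1.2 at h
        nlinarith
      reach := fun x => by
        obtain ⟨n, hn⟩ := pow_unbounded_of_one_lt (t / x.1.2) hK
        refine ⟨n, ?_⟩
        change t < _
        rw [up_iter]
        rwa [div_lt_iff₀ x.2] at hn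
      join := chain hK
      one := one
      inv := fun h => inv _ h
      A := fun {x s u} h1 _ h3 h4 h5 => by
        refine hA _ h4 _ h5 ?_
        have a := c_le_ih (u.1 * s.1) x
        rw [ih_eq] at a
        change t < ((u.1 * s.1) • x).1.2 at h3
        change t < x.1.2 at h1
        have b : (((u.1 * s.1) • x).1.2)⁻¹ < t⁻¹ := inv_strictAnti₀ ht h3
        have c : ‖(u.1 * s.1).1 1 0‖ ^ 2 * t * t < 1 := by
          rw [← lt_div_iff₀ ht, one_div]
          nlinarith [sq_nonneg ‖(u.1 * s.1).1 1 0‖]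
        by_contra hn
        nlinarith
      B := fun {x} h => by
        obtain ⟨s, a, b, c⟩ := hB x.1 h
        refine ⟨⟨s, b⟩, a, fun y hy => ?_⟩
        have e := (hy s).2
        rw [ih_eq, ih_eq] at e
        change K ^ 2 * t < (s • x).1.2 at c
        change t < (s • y).1.2
        have p1 := (s • x).2
        have p2 := (s • y).2
        rw [← div_eq_mul_inv, le_div_iff₀ p1, inv_mul_le_iff₀ p2] at e
        by_contra hn
        nlinarith [sq_pos_of_pos K0] }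
  obtain ⟨h1, h2⟩ := D.main _ Subgroup.closure_closure_coe_preimage fun s hs =>
    ⟨(gen _ hs).1, exists_pt s.1 ht (gen _ hs).2⟩
  refine ⟨fun g hg h => ?_, fun p hp => ?_⟩
  · obtain ⟨x, a, b⟩ := exists_pt g ht h
    exact h1 ⟨g, hg⟩ x a b
  · obtain ⟨g, hg⟩ := h2 ⟨p, hp⟩
    exact ⟨g.1, g.2, hg⟩

end Pool.Agent.Lib.MP_743898_gtN
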