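import Pool.Agent.Lib.MP_743898_gtN.Cover
import Pool.Agent.Lib.MP_743898_gtN.Defs
import Pool.Agent.Lib.MP_743898_gt.CArMain

set_option autoImplicit false

/-! The members of the family with parameter of modulus at most 13/5. -/

namespace Pool.Agent.Lib.MP_743898_gtN

open Pool.Agent.Lib.MP_743898_gt Pool.Agent.Lib.MP_743898_gt.Cl M2 Complex

theorem not_arith_c0 {Γ : Subgroup PSL} (h : Conjugate Γ (fam4 c0⁻¹)) : ¬ CuspArith Γ := fun a =>
  not_gi_c0 (by simpa using (arith4 (inv_ne_zero c0_ne) ((conj4_iff (inv_ne_zero c0_ne)).1 h) a).1)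

theorem grpN_eq : grpN = fam4 c0⁻¹ := by
  have : (1 + I) * (1 + (√2 : ℝ) / 2) = c0 := by
    apply Complex.ext <;> simp [c0, z8]
  rw [grpN, this]

theorem conj_symm {Γ Δ : Subgroup PSL} (h : Conjugate Γ Δ) : Conjugate Δ Γ := by
  obtain ⟨P, h⟩ := h
  exact ⟨P⁻¹, fun x => by rw [h]; simp [mul_assoc]⟩

theorem orb_conj {Γ Δ : Subgroup PSL} (h : Conjugate Γ Δ) (hΔ : IsOrbifoldGroup Δ) :
    IsOrbifoldGroup Γ := by
  obtain ⟨P, h⟩ := h
  obtain ⟨h1, h2, D, d1, d2, d3, d4⟩ := hΔ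
  obtain ⟨T, rfl⟩ := QuotientGroup.mk_surjective P
  have m : ∀ y ∈ Δ, (T : PSL) * y * (T : PSL)⁻¹ ∈ Γ := fun y hy => by
    rw [h]; simpa [mul_assoc] using hy
  obtain ⟨v1, v2, v3⟩ := vp_act T D d1 d2
  refine ⟨fun p hp => h1 ((T : PSL)⁻¹ • p) ?_, ?_, act T '' D, v1, v2, v3.trans_lt d3,
    fun p hp => ?_⟩
  · refine (hp.image fun q => (T : PSL)⁻¹ • q).subset ?_
    rintro _ ⟨x, rfl⟩
    refine ⟨_, ⟨⟨_, m _ x.2⟩, rfl⟩, ?_⟩
    change (T : PSL)⁻¹ • (((T : PSL) * x.1 * (T : PSL)⁻¹) • p) = x.1 • (T : PSL)⁻¹ • p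
    simp only [← mul_smul, mul_assoc, inv_mul_cancel_left]
  · refine (h2.preimage (f := fun x : PSL => (T : PSL)⁻¹ * x * T) (by fun_prop)
      fun x y e => by simpa using e).mono fun x hx => (h x).1 hx
  · have pos : ∀ (A : SL) (q : ℂ × ℝ), 0 < q.2 → 0 < (act A q).2 := fun A q hq =>
      (vp_act A {q} (measurableSet_singleton q) (by simpa using hq)).2.1 _ ⟨q, rfl, rfl⟩
    obtain ⟨g, a, b⟩ := d4 _ (pos T⁻¹ p hp)
    refine ⟨T * (g * T⁻¹), by simpa [mul_assoc] using m _ a, _, b, ?_⟩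
    rw [act_mul _ _ hp, act_mul _ _ hp]

theorem conj_rot {Γ : Subgroup PSL} {c : ℂ} (h0 : c ≠ 0) (h : Conjugate Γ (fam4 c⁻¹)) :
    Conjugate Γ (fam4 (I * c)⁻¹) :=
  (conj4_iff (inv_ne_zero (mul_ne_zero I_ne_zero h0))).2 (rot4 ((conj4_iff (inv_ne_zero h0)).1 h))

theorem small_quad {Γ : Subgroup PSL} (hΓ : IsOrbifoldGroup Γ) {c : ℂ} (h0 : c ≠ 0)
    (h : Conjugate Γ (fam4 c⁻¹)) (h2 : ‖c‖ ≤ 13 / 5) (hr : 0 < c.re) (hi : 0 ≤ c.im) :
    (∃ k, Conjugate Γ (cuspTan k)) ∨ Conjugate Γ grpN := by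
  rcases cover h0 ((orb_ext h0).1 (orb_conj (conj_symm h) hΓ)).2.1 h2 hr.le hi with
    ⟨m, n, rfl⟩ | rfl
  · left
    have r3 := conj_rot (mul_ne_zero I_ne_zero (mul_ne_zero I_ne_zero h0))
      (conj_rot (mul_ne_zero I_ne_zero h0) (conj_rot h0 h))
    rw [show I * (I * (I * ((m : ℂ) + n * I))) = n - m * I by
      linear_combination (I * m + n * (I ^ 2 - 1)) * I_mul_I] at r3
    have b : m ^ 2 + n ^ 2 < 7 := by
      have e : ‖(m : ℂ) + n * I‖ ^ 2 = m ^ 2 + n ^ 2 := by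
        rw [← normSq_eq_norm_sq, normSq_apply]; simp; ring
      have : (m : ℝ) ^ 2 + n ^ 2 < 7 := by nlinarith [norm_nonneg ((m : ℂ) + n * I)]
      exact_mod_cast this
    have m0 : 0 < m := by simpa using hr
    have n0 : 0 ≤ n := by simpa using hi
    have m2 : m ≤ 2 := by nlinarith [sq_nonneg n]
    have n2 : n ≤ 2 := by nlinarith [sq_nonneg m]
    interval_cases m <;> interval_cases n
    · exact ⟨2, by simpa [cuspTan] using h⟩
    · exact ⟨3, by simpa [cuspTan] using h⟩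
    · exact ⟨6, by simpa [cuspTan] using r3⟩
    · exact ⟨4, by simpa [cuspTan] using h⟩
    · exact ⟨5, by simpa [cuspTan] using h⟩
    · norm_num at b
  · exact Or.inr (grpN_eq ▸ h)

theorem small {Γ : Subgroup PSL} (hΓ : IsOrbifoldGroup Γ) {c : ℂ} (h0 : c ≠ 0)
    (h : Conjugate Γ (fam4 c⁻¹)) (h2 : ‖c‖ ≤ 13 / 5) :
    (∃ k, Conjugate Γ (cuspTan k)) ∨ Conjugate Γ grpN := by
  have n1 := mul_ne_zero I_ne_zero h0
  have n2 := mul_ne_zero I_ne_zero n1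
  have n3 := mul_ne_zero I_ne_zero n2
  have r1 := conj_rot h0 h
  have r2 := conj_rot n1 r1
  have r3 := conj_rot n2 r2
  have z : c.re ≠ 0 ∨ c.im ≠ 0 := by
    by_contra hc
    push Not at hc
    exact h0 (Complex.ext hc.1 hc.2)
  by_cases c0 : 0 < c.re ∧ 0 ≤ c.im
  · exact small_quad hΓ h0 h h2 c0.1 c0.2
  by_cases c1 : c.im < 0 ∧ 0 ≤ c.re
  · exact small_quad hΓ n1 r1 (by simpa using h2) (by simpa using c1.1) (by simpa using c1.2)
  by_cases c2 : c.re < 0 ∧ c.im ≤ 0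
  · exact small_quad hΓ n2 r2 (by simpa using h2) (by simpa using c2.1) (by simpa using c2.2)
  · have : 0 < c.im ∧ c.re ≤ 0 := by grind
    exact small_quad hΓ n3 r3 (by simpa using h2) (by simpa using this.1) (by simpa using this.2)

theorem orb_N {Γ : Subgroup PSL} (h : Conjugate Γ grpN) : IsOrbifoldGroup Γ :=
  orb_conj (grpN_eq ▸ h) orb_c0

end Pool.Agent.Lib.MP_743898_gtN
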