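import Pool.Agent.Lib.MP_743898_gtN.Horo

set_option autoImplicit false

/-! A finite certificate that a member of the one-parameter family is a lattice. -/

namespace Pool.Agent.Lib.MP_743898_gtN

open Pool.Agent.Lib.MP_743898_gt Pool.Agent.Lib.MP_743898_gt.Cl M2 Complex

theorem gi_one : GI 1 := ⟨1, 0, by simp⟩

theorem gi_add {x y : ℂ} (hx : GI x) (hy : GI y) : GI (x + y) := by
  simpa using hx.add_mul hy gi_one

theorem gi_mul {x y : ℂ} (hx : GI x) (hy : GI y) : GI (x * y) := by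
  simpa using GI.add_mul (x := 0) ⟨0, 0, by simp⟩ hy hx

theorem gi_near (z : ℂ) : ∃ w, GI w ∧ ‖w - z‖ ≤ 1 := by
  refine ⟨(round z.re : ℤ) + (round z.im : ℤ) * I, ⟨_, _, rfl⟩, ?_⟩
  refine (norm_le_abs_re_add_abs_im _).trans ?_
  have a1 := abs_sub_round z.re
  have a2 := abs_sub_round z.im
  rw [abs_sub_comm] at a1 a2
  simp only [sub_re, add_re, intCast_re, mul_re, I_re, mul_zero, intCast_im, I_im, mul_one,
    sub_self, add_zero, sub_im, add_im, mul_im, zero_add]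
  linarith

theorem wdt {μ : ℂ} (h0 : μ ≠ 0) : Wd (⟨I, 0, 0, 1⟩ : M2) ⟨1, μ, 1, 0⟩ (tl (-1 + I)) := by
  refine Wd.of_sc (u := -(I * μ)) (neg_ne_zero.2 (mul_ne_zero I_ne_zero h0)) ?_
  have e : sc (-(I * μ)) (tl (-1 + I)) = (⟨I, 0, 0, 1⟩ : M2) * ⟨1, μ, 1, 0⟩ * ⟨I, 0, 0, 1⟩
      * adj ⟨1, μ, 1, 0⟩ := by
    ext <;> simp only [sc, tl, adj, mul_a, mul_b, mul_c, mul_d] <;> ring_nf
  rw [e]
  exact (((Wd.l _ _).mul (Wd.r _ _)).mul (Wd.l _ _)).mul (Wd.r _ _).adj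

theorem wdt2 {μ : ℂ} (h0 : μ ≠ 0) :
    Wd (⟨I, 0, 0, 1⟩ : M2) ⟨1, μ, 1, 0⟩ (tl (I * (-1 + I))) := by
  refine Wd.of_sc I_ne_zero ?_
  have e : sc I (tl (I * (-1 + I))) = (⟨I, 0, 0, 1⟩ : M2) * tl (-1 + I) * adj ⟨I, 0, 0, 1⟩ := by
    ext <;> simp only [sc, tl, adj, mul_a, mul_b, mul_c, mul_d] <;> ring
  rw [e]
  exact ((Wd.l _ _).mul (wdt h0)).mul (Wd.l _ _).adj

/-- the maps `z ↦ i^k z + m + n i` -/
def PP (X : M2) : Prop := ∃ (k : ℕ) (m n : ℤ), k < 4 ∧ X = ⟨I ^ k, m + n * I, 0, 1⟩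

theorem pp_mk (k : ℕ) {l : ℂ} (h : GI l) : PP ⟨I ^ k, l, 0, 1⟩ := by
  obtain ⟨m, n, rfl⟩ := h
  exact ⟨k % 4, m, n, Nat.mod_lt _ (by norm_num), by rw [← I_pow_eq_pow_mod]⟩

theorem gi_pow (k : ℕ) : GI (I ^ k) := by
  induction k with
  | zero => simpa using gi_one
  | succ k ih => rw [pow_succ]; exact gi_mul ih ⟨0, 1, by simp⟩

theorem PP.one : PP one2 := ⟨0, 0, 0, by norm_num, by simp [one2]⟩

theorem PP.mul {X Y : M2} (hX : PP X) (hY : PP Y) : PP (X * Y) := by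
  obtain ⟨k, m, n, -, rfl⟩ := hX
  obtain ⟨j, a, b, -, rfl⟩ := hY
  convert pp_mk (k + j) (l := I ^ k * (a + b * I) + (m + n * I))
    (gi_add (gi_mul (gi_pow k) ⟨a, b, rfl⟩) ⟨m, n, rfl⟩) using 1
  ext <;> simp [pow_add]

theorem PP.adj {X : M2} (hX : PP X) : ∃ u Y, PP Y ∧ adj X = sc u Y := by
  obtain ⟨k, m, n, -, rfl⟩ := hX
  have e : I ^ k * I ^ (3 * k) = 1 := by
    rw [← pow_add, show k + 3 * k = 4 * k by ring, pow_mul, I_pow_four, one_pow]
  refine ⟨I ^ k, _, pp_mk (3 * k) (l := I ^ (3 * k) * -(m + n * I))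
    (gi_mul (gi_pow _) (GI.neg ⟨m, n, rfl⟩)), ?_⟩
  ext <;> simp only [M2.adj, sc]
  · exact e.symm
  · rw [← mul_assoc, e, one_mul]
  · simp
  · simp

theorem PP.norm_det {X : M2} (hX : PP X) : ‖det X‖ = 1 := by
  obtain ⟨k, m, n, -, rfl⟩ := hX
  simp [det]

theorem PP.norm_c {X Y : M2} (hX : PP X) (hY : PP Y) (Z : M2) : ‖(X * Z * Y).c‖ = ‖Z.c‖ := by
  obtain ⟨k, m, n, -, rfl⟩ := hX
  obtain ⟨j, a, b, -, rfl⟩ := hY
  simp

/-- the union of the listed double cosets, up to scalars -/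
def InS (L : List M2) (X : M2) : Prop :=
  ∃ t P Q s, PP P ∧ PP Q ∧ (s = one2 ∨ s ∈ L) ∧ X = sc t (P * s * Q)

theorem InS.sc {L : List M2} {X : M2} (h : InS L X) (u : ℂ) : InS L (sc u X) := by
  obtain ⟨t, P, Q, s, a, b, c, rfl⟩ := h
  exact ⟨u * t, P, Q, s, a, b, c, sc_sc _ _ _⟩

theorem InS.lr {L : List M2} {X U V : M2} (h : InS L X) (hU : PP U) (hV : PP V) :
    InS L (U * X * V) := by
  obtain ⟨t, P, Q, s, a, b, c, rfl⟩ := h
  exact ⟨t, U * P, Q * V, s, hU.mul a, b.mul hV, c, by simp only [mul_sc, sc_mul, mul_as]⟩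

theorem InS.base {L : List M2} {s : M2} (h : s = one2 ∨ s ∈ L) : InS L s :=
  ⟨1, one2, one2, s, PP.one, PP.one, h, by rw [sc_one, one_mu, mu_one]⟩

theorem PP.inS {L : List M2} {X : M2} (h : PP X) : InS L X := by
  simpa only [mu_one] using (InS.base (L := L) (Or.inl rfl)).lr h PP.one

/-- lifts of the three generators -/
def gT (c : ℂ) : Set SL :=
  {A | ∃ t, toM A = sc t ⟨I, 0, 0, 1⟩ ∨ toM A = sc t (tl (-1)) ∨ toM A = sc t ⟨0, 1, c, 0⟩}

/-- words in the three generators, up to scalars -/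
def W3 (c : ℂ) (X : M2) : Prop :=
  det X ≠ 0 ∧ ∀ (A : SL) (t : ℂ), toM A = sc t X → A ∈ Subgroup.closure (gT c)

theorem exists_sl {X : M2} (h : det X ≠ 0) : ∃ (A : SL) (t : ℂ), toM A = sc t X := by
  obtain ⟨t, -, ht⟩ := exists_normalize h
  obtain ⟨A, hA⟩ := exists_lift ht
  exact ⟨A, t, hA⟩

theorem W3.mul {c : ℂ} {X Y : M2} (hX : W3 c X) (hY : W3 c Y) : W3 c (X * Y) := by
  refine ⟨by rw [det_mul]; exact mul_ne_zero hX.1 hY.1, fun A t h => ?_⟩
  obtain ⟨B, u, hB⟩ := exists_sl hX.1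
  have : B⁻¹ * A ∈ _ := hY.2 (B⁻¹ * A) (u * t * det X) (by
    rw [toM_mul, toM_inv, hB, h, adj_sc, sc_mul, mul_sc, ← mul_as, adj_mul, sc_mul, one_mu, sc_sc,
      sc_sc])
  simpa using Subgroup.mul_mem _ (hX.2 B u hB) this

theorem W3.adj {c : ℂ} {X : M2} (hX : W3 c X) : W3 c (adj X) := by
  refine ⟨by rw [det_adj]; exact hX.1, fun A t h => ?_⟩
  simpa using Subgroup.inv_mem _ (hX.2 A⁻¹ t (by rw [toM_inv, h, adj_sc, adj_adj]))

theorem W3.of_sc {c u : ℂ} {X : M2} (hX : W3 c (sc u X)) : W3 c X := by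
  have h := hX.1
  rw [det_sc] at h
  have u0 : u ≠ 0 := fun e => h (by simp [e])
  exact ⟨right_ne_zero_of_mul h, fun A t e =>
    hX.2 A (t * u⁻¹) (by rw [sc_sc, e, inv_mul_cancel_right₀ u0])⟩

theorem w3_f (c : ℂ) : W3 c ⟨I, 0, 0, 1⟩ :=
  ⟨by simp [det], fun _ t h => Subgroup.subset_closure ⟨t, Or.inl h⟩⟩
theorem w3_t (c : ℂ) : W3 c (tl (-1)) :=
  ⟨by simp [det, tl], fun _ t h => Subgroup.subset_closure ⟨t, Or.inr (Or.inl h)⟩⟩
theorem w3_h {c : ℂ} (h0 : c ≠ 0) : W3 c ⟨0, 1, c, 0⟩ :=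
  ⟨by simp [det, h0], fun _ t h => Subgroup.subset_closure ⟨t, Or.inr (Or.inr h)⟩⟩

theorem tl_add (x y : ℂ) : tl x * tl y = tl (x + y) := by ext <;> simp [tl, add_comm]
theorem adj_tl (x : ℂ) : adj (tl x) = tl (-x) := by ext <;> simp [tl, adj]

theorem w3_one (c : ℂ) : W3 c one2 := by
  have := (w3_t c).mul (w3_t c).adj
  rwa [mul_adj1 (by simp [det, tl])] at this

theorem w3_int {c x : ℂ} (h : W3 c (tl x)) (n : ℤ) : W3 c (tl (n * x)) := by
  induction n using Int.induction_on with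
  | zero => simpa [tl, one2] using w3_one c
  | succ n ih => convert ih.mul h using 1; rw [tl_add]; push_cast; ring_nf
  | pred n ih => convert ih.mul h.adj using 1; rw [adj_tl, tl_add]; push_cast; ring_nf

theorem PP.w3 (c : ℂ) {X : M2} (h : PP X) : W3 c X := by
  obtain ⟨k, m, n, -, rfl⟩ := h
  have h1 : W3 c (tl 1) := by simpa [adj_tl] using (w3_t c).adj
  have h2 : W3 c (tl I) := by
    refine W3.of_sc (u := I) ?_
    convert ((w3_f c).mul h1).mul (w3_f c).adj using 1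
    ext <;> simp [tl, sc, M2.adj]
  have h3 : W3 c ⟨I ^ k, 0, 0, 1⟩ := by
    induction k with
    | zero => simpa [one2] using w3_one c
    | succ k ih => convert ih.mul (w3_f c) using 1; ext <;> simp [pow_succ]
  convert ((w3_int h1 m).mul (w3_int h2 n)).mul h3 using 1
  ext <;> simp [tl, add_comm]

theorem norm_sc {A : SL} {t : ℂ} {X : M2} (h : toM A = sc t X) : ‖t‖ ^ 2 * ‖det X‖ = 1 := by
  rw [← norm_pow, ← norm_mul, ← det_sc, ← h, toM_det, norm_one]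

theorem ent_c {A : SL} {t : ℂ} {X : M2} (h : toM A = sc t X) : A.1 1 0 = t * X.c :=
  congrArg M2.c h
theorem ent_d {A : SL} {t : ℂ} {X : M2} (h : toM A = sc t X) : A.1 1 1 = t * X.d :=
  congrArg M2.d h

/-- the finite certificate -/
structure Cert (c : ℂ) (L : List M2) (K t : ℝ) : Prop where
  c0 : c ≠ 0
  K1 : 1 < K
  t0 : 0 < t
  t1 : t ≤ 1
  ct : ‖c‖ * t ^ 2 < 1
  h : (⟨0, 1, c, 0⟩ : M2) ∈ L
  inv : ∀ s ∈ L, InS L (adj s)
  big : ∀ s ∈ L, ‖det s‖ ≤ ‖s.c‖ ^ 2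
  A : ∀ s ∈ L, ∀ u ∈ L, ∀ P, PP P → ‖(u * P * s).c‖ ^ 2 * t ^ 2 < ‖det u‖ * ‖det s‖ →
    InS L (u * P * s)
  B : ∀ z : ℂ, ∃ X, W3 c X ∧ InS L X ∧
    K ^ 2 * (‖X.c * z + X.d‖ ^ 2 + ‖X.c‖ ^ 2 * (K ^ 2 * t) ^ 2) ≤ ‖det X‖

theorem Cert.horo {c : ℂ} {L : List M2} {K t : ℝ} (C : Cert c L K t) :
    (∀ g ∈ Subgroup.closure (gT c), ‖g.1 1 0‖ * t < 1 → InS L (toM g)) ∧
      ∀ p : ℂ × ℝ, 0 < p.2 → ∃ g ∈ Subgroup.closure (gT c), t < (act g p).2 := by
  have t0 := C.t0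
  have K0 : 0 < K := by linarith [C.K1]
  refine MP_743898_gtN.horo (gT c) {g | InS L (toM g)} C.K1 C.t0 ?_ ?_ ?_ ?_ ?_
  · change InS L (toM 1)
    rw [toM_one]; exact PP.one.inS
  · rintro g ⟨u, P, Q, s, a, b, h, e⟩
    change InS L (toM g⁻¹)
    obtain ⟨x, P', a', ea⟩ := a.adj
    obtain ⟨y, Q', b', eb⟩ := b.adj
    rw [toM_inv, e, adj_sc, adj_mu, adj_mu, ea, eb, mul_sc, mul_sc, sc_mul, ← mul_as]
    refine (((InS.lr ?_ b' a').sc _).sc _).sc _
    rcases h with rfl | h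
    · rw [adj_one2]; exact PP.one.inS
    · exact C.inv s h
  · rintro g ⟨x, P, Q, s, a, b, h, e⟩ f ⟨y, U, V, u, a', b', h', e'⟩ hn
    change InS L (toM (f * g))
    have E : toM (f * g) = sc (y * x) (U * (u * (V * P) * s) * Q) := by
      rw [toM_mul, e, e', sc_mul, mul_sc, sc_sc]; simp only [mul_as]
    have n1 := norm_sc E
    rw [ent_c E, norm_mul, a'.norm_c b] at hn
    rw [det_mul, det_mul, det_mul, det_mul, norm_mul (_ * _) (det Q), norm_mul (det U),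
      norm_mul _ (det s), norm_mul (det u), a'.norm_det, b.norm_det, (b'.mul a).norm_det] at n1
    rw [E]
    refine (InS.lr ?_ a' b).sc _
    rcases h with rfl | h
    · simpa only [one_mu, mu_one] using (InS.base h').lr PP.one (b'.mul a)
    rcases h' with rfl | h'
    · simpa only [one_mu, mu_one] using (InS.base (Or.inr h)).lr (b'.mul a) PP.one
    refine C.A s h u h' _ (b'.mul a) ?_
    have p0 : 0 ≤ ‖y * x‖ * ‖(u * (V * P) * s).c‖ * t := by positivity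
    have : 0 < ‖y * x‖ ^ 2 := by
      refine (sq_nonneg _).lt_of_ne fun h0 => ?_
      rw [← h0] at n1; simp at n1
    refine lt_of_mul_lt_mul_left ?_ this.le
    nlinarith
  · intro p hp
    have p0 : 0 < p.2 := t0.trans hp
    rcases lt_or_ge (K ^ 2 * t) p.2 with h | h
    · exact ⟨1, by change InS L (toM 1); rw [toM_one]; exact PP.one.inS, one_mem _,
        by rwa [act_one]⟩
    obtain ⟨X, a, b, e⟩ := C.B p.1
    obtain ⟨A, u, hA⟩ := exists_sl a.1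
    refine ⟨A, by change InS L (toM A); rw [hA]; exact b.sc u, a.2 A u hA, ?_⟩
    have d := den_pos A p.1 p0
    rw [act_snd, lt_div_iff₀ d]
    have n1 := norm_sc hA
    have : K ^ 2 * den A p.1 p.2 ≤ 1 := by
      rw [den, ent_c hA, ent_d hA, mul_assoc u, ← mul_add, norm_mul, norm_mul, ← n1]
      have := mul_le_mul_of_nonneg_left (pow_le_pow_left₀ p0.le h 2) (sq_nonneg (K * ‖X.c‖ * ‖u‖))
      nlinarith [mul_le_mul_of_nonneg_left e (sq_nonneg ‖u‖)]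
    nlinarith
  · rintro g ⟨u, h | h | h⟩
    · refine ⟨?_, by rw [ent_c h]; simp⟩
      change InS L (toM g)
      rw [h]; exact (PP.inS ⟨1, 0, 0, by norm_num, by simp⟩).sc _
    · refine ⟨?_, by rw [ent_c h]; simp [tl]⟩
      change InS L (toM g)
      rw [h]; exact (PP.inS ⟨0, -1, 0, by norm_num, by simp [tl]⟩).sc _
    · refine ⟨?_, ?_⟩
      · change InS L (toM g)
        rw [h]; exact (InS.base (Or.inr C.h)).sc _
      · have n1 := norm_sc h
        simp only [det, mul_zero, one_mul, zero_sub, norm_neg] at n1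
        rw [ent_c h, norm_mul]
        have p0 : 0 ≤ ‖u‖ * ‖c‖ * t := by positivity
        have := C.ct
        by_contra hn
        have e : (‖u‖ * ‖c‖ * t) ^ 2 = ‖c‖ * t ^ 2 := by
          rw [← one_mul (‖c‖ * t ^ 2), ← n1]; ring
        nlinarith

/-- the extension of index at most two -/
def ext3 (c : ℂ) : Subgroup PSL :=
  (Subgroup.closure (gT c)).map (QuotientGroup.mk' (Subgroup.center SL))

theorem mem_fam4 {c : ℂ} (h0 : c ≠ 0) (A : SL) :
    (A : PSL) ∈ fam4 c⁻¹ ↔ Wd ⟨I, 0, 0, 1⟩ ⟨1, c⁻¹, 1, 0⟩ (toM A) :=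
  mem_gen_iff _ _ (by simp [det, mM]) (by simp [det, mM, h0]) A

theorem w3_of_wd {c : ℂ} (h0 : c ≠ 0) {X : M2} (h : Wd ⟨I, 0, 0, 1⟩ ⟨1, c⁻¹, 1, 0⟩ X) :
    W3 c X := by
  obtain ⟨t, t0, W, hW, rfl⟩ := h
  refine W3.of_sc (u := t⁻¹) ?_
  rw [sc_sc, inv_mul_cancel₀ t0, sc_one]
  induction hW with
  | one => exact w3_one c
  | l => exact w3_f c
  | r =>
    refine W3.of_sc (u := c) ?_
    convert (w3_t c).adj.mul (w3_h h0) using 1
    ext <;> simp [sc, tl, adj, h0]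
  | mul _ _ a b => exact a.mul b
  | adj _ a => exact a.adj

theorem fam4_le {c : ℂ} (h0 : c ≠ 0) : fam4 c⁻¹ ≤ ext3 c := fun x hx => by
  obtain ⟨A, rfl⟩ := QuotientGroup.mk_surjective x
  exact ⟨A, (w3_of_wd h0 ((mem_fam4 h0 A).1 hx)).2 A 1 (sc_one _).symm, rfl⟩

theorem sc_ne {A : SL} {t : ℂ} {X : M2} (h : toM A = sc t X) : t ≠ 0 := by
  rintro rfl
  simpa using norm_sc h

theorem orb_ext {c : ℂ} (h0 : c ≠ 0) : IsOrbifoldGroup (fam4 c⁻¹) ↔ IsOrbifoldGroup (ext3 c) := by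
  obtain ⟨H, u, hH⟩ := exists_sl (w3_h h0).1
  have u0 := sc_ne hH
  have hh : (H : PSL) * H = 1 := by
    refine (mk_eq_one_iff (H * H)).2 ⟨u * u * c, ?_⟩
    rw [toM_mul, hH]; ext <;> simp [sc, one2] <;> ring
  have dH : u * u * c = -1 := by
    have := toM_det H
    rw [hH] at this
    simp only [det, sc] at this
    linear_combination -this
  refine orb_iff_of_two (t := H) (fam4_le h0) ?_
  rw [ext3, MonoidHom.map_closure]
  refine cover_two hh ?_ fun x hx => ?_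
  · rintro _ ⟨A, ⟨t, h | h | h⟩, rfl⟩
    · exact Or.inl ((mem_fam4 h0 A).2 (h ▸ (Wd.l _ _).sc (sc_ne h)))
    · refine Or.inr ((mem_fam4 h0 (H * A)).2 ?_)
      convert (Wd.r ⟨I, 0, 0, 1⟩ ⟨1, c⁻¹, 1, 0⟩).adj.sc
        (u := -(u * t * c)) (by simp [u0, sc_ne h, h0]) using 1
      rw [toM_mul, hH, h]; ext <;> simp [sc, tl, adj] <;> field_simp
    · refine Or.inr ((mem_fam4 h0 (H * A)).2 ?_)
      convert (Wd.one ⟨I, 0, 0, 1⟩ ⟨1, c⁻¹, 1, 0⟩).sc
        (u := u * t * c) (by simp [u0, sc_ne h, h0]) using 1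
      rw [toM_mul, hH, h]; ext <;> simp [sc, one2] <;> ring
  · obtain ⟨A, rfl⟩ := QuotientGroup.mk_surjective x
    refine (mem_fam4 h0 (H * A * H)).2 ?_
    have e : toM (H * A * H) = sc (-1) (cj (toM H) (toM A)) := by
      rw [toM_mul, toM_mul, hH]; ext <;> simp [sc, cj, adj]
    rw [e]
    refine Wd.sc (Wd.sub ?_ ?_ (((mem_fam4 h0 A).1 hx).cj (toM_det H))) (by norm_num)
    · convert (Wd.l ⟨I, 0, 0, 1⟩ ⟨1, c⁻¹, 1, 0⟩).adj using 1
      rw [hH]; ext <;> simp [sc, cj, adj]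
      · linear_combination -dH
      · linear_combination -I * dH
    · have m0 := inv_ne_zero h0
      convert (Wd.r ⟨I, 0, 0, 1⟩ ⟨1, c⁻¹, 1, 0⟩).adj.mul ((wdt m0).mul (wdt2 m0)).adj |>.sc
        (u := -1) (by norm_num) using 1
      rw [hH, tl_add, adj_tl]; ext <;> simp [sc, cj, adj, tl]
      · field_simp; linear_combination -dH
      · field_simp; linear_combination -dH
      · first | linear_combination -dH | (field_simp; linear_combination -dH + I_mul_I)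

theorem nonelem4 {c : ℂ} (h0 : c ≠ 0) : Nonelementary (ext3 c) := by
  have m0 := inv_ne_zero h0
  refine nonelem_of_big (F := ⟨I, 0, 0, 1⟩) (G := ⟨1, c⁻¹, 1, 0⟩)
    (fun A hA => fam4_le h0 ((mem_fam4 h0 A).2 hA))
    ⟨tl (-1 + I), ⟨1, 0, c * (-1 + I), 1⟩, wdt m0, ?_, by simp [det, tl], by simp [det],
      by norm_num [tr, tl], by norm_num [tr], ?_⟩
  · refine Wd.of_sc (u := -c⁻¹) (neg_ne_zero.2 m0) ?_
    convert ((Wd.r ⟨I, 0, 0, 1⟩ ⟨1, c⁻¹, 1, 0⟩).adj.mul (wdt m0)).mul (Wd.r _ _) using 1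
    ext <;> simp [sc, tl, adj]
    field_simp
    ring
  · have k0 : (-1 + I : ℂ) ≠ 0 := fun h => by simpa using congrArg Complex.re h
    have : gam (tl (-1 + I)) ⟨1, 0, c * (-1 + I), 1⟩ = (c * (-1 + I) ^ 2) ^ 2 := by
      simp only [gam, tr, adj, tl, mul_a, mul_b, mul_c, mul_d]; ring
    rw [this]
    exact pow_ne_zero _ (mul_ne_zero h0 (pow_ne_zero _ k0))

theorem Cert.discrete {c : ℂ} {L : List M2} {K t : ℝ} (C : Cert c L K t) :
    IsDiscrete (ext3 c : Set PSL) := by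
  rw [isDiscrete_iff_discreteTopology]
  refine discreteTopology_of_isOpen_singleton_one (G := ext3 c) ?_
  have h : ∀ i j, Continuous fun A : SL => A.1 i j := fun i j =>
    (continuous_apply_apply i j).comp Matrix.SpecialLinearGroup.isClosedEmbedding_val.continuous
  have h1 := h 0 0
  have h2 := h 0 1
  have h3 := h 1 0
  set U : Set SL := {A | ‖A.1 1 0‖ < 1} ∩ {A | ‖A.1 0 0 ^ 2 - 1‖ < 1} ∩ {A | ‖A.1 0 0 * A.1 0 1‖ < 1}
  have hUo : IsOpen U := ((isOpen_lt (by fun_prop) continuous_const).inter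
    (isOpen_lt (by fun_prop) continuous_const)).inter (isOpen_lt (by fun_prop) continuous_const)
  have hW : IsOpen ((fun A : SL => (A : PSL)) '' U) := QuotientGroup.isOpenMap_coe U hUo
  convert hW.preimage (continuous_subtype_val (p := fun x => x ∈ ext3 c)) using 1
  ext x
  simp only [Set.mem_singleton_iff, Set.mem_preimage]
  constructor
  · rintro rfl
    exact ⟨1, by simp [U], rfl⟩
  · rintro ⟨A, ⟨⟨a1, a2⟩, a3⟩, e⟩
    obtain ⟨B, hB, eB⟩ := x.2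
    obtain ⟨v, hv⟩ := (mk_eq_iff A B).1 (e.trans eB.symm)
    have v1 : ‖v‖ = 1 := by
      have := norm_sc hv
      rw [toM_det, norm_one, mul_one] at this
      exact (pow_eq_one_iff_of_nonneg (norm_nonneg _) two_ne_zero).1 this
    change ‖A.1 1 0‖ < 1 at a1
    have b1 : ‖B.1 1 0‖ < 1 := by rwa [ent_c hv, norm_mul, v1, one_mul] at a1
    obtain ⟨w, P, Q, s, p1, p2, p3, p4⟩ := (C.horo.1 B hB
      (by nlinarith [C.t0, C.t1, norm_nonneg (B.1 1 0)])).sc v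
    rw [← hv] at p4
    have n1 := norm_sc p4
    rw [det_mul, det_mul, norm_mul, norm_mul, p1.norm_det, p2.norm_det] at n1
    rcases p3 with rfl | p3
    · rw [mu_one] at p4
      obtain ⟨k, m, n, -, e1⟩ := p1.mul p2
      rw [e1] at p4
      have d := toM_det A
      have ea : A.1 0 0 = w * I ^ k := congrArg M2.a p4
      have eb : A.1 0 1 = w * (m + n * I) := congrArg M2.b p4
      rw [p4] at d
      simp only [det, sc] at d
      change ‖A.1 0 0 ^ 2 - 1‖ < 1 at a2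
      change ‖A.1 0 0 * A.1 0 1‖ < 1 at a3
      have z : ∀ y, GI y → ‖y‖ < 1 → y = 0 := fun y hy h => by
        by_contra h0
        have := hy.one_le h0
        rw [normSq_eq_norm_sq] at this
        nlinarith [norm_nonneg y]
      have q1 : I ^ k - 1 = 0 := z _ (by simpa [sub_eq_add_neg] using gi_add (gi_pow k) gi_one.neg) (by
        convert a2 using 2; rw [ea]; linear_combination -I ^ k * d)
      have q2 : (m + n * I : ℂ) = 0 := z _ ⟨m, n, rfl⟩ (by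
        convert a3 using 2; rw [ea, eb]; linear_combination -(m + n * I) * d)
      refine Subtype.ext (e.symm.trans ((mk_eq_one_iff A).2 ⟨w, ?_⟩))
      rw [p4, q2, sub_eq_zero.1 q1]; rfl
    · exfalso
      rw [ent_c p4, norm_mul, p1.norm_c p2] at a1
      have := mul_le_mul_of_nonneg_left (C.big s p3) (sq_nonneg ‖w‖)
      have p0 : 0 ≤ ‖w‖ * ‖s.c‖ := by positivity
      nlinarith

theorem Cert.finCov {c : ℂ} {L : List M2} {K t : ℝ} (C : Cert c L K t) :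
    FiniteCovolume (ext3 c) := by
  have t0 := C.t0
  refine ⟨Metric.closedBall 0 (1 / t) ×ˢ Set.Ioi (1 / (1 / t)),
    measurableSet_closedBall.prod measurableSet_Ioi, fun p hp => lt_trans (by positivity) hp.2,
    hvol_regA _ (by positivity), fun p hp => ?_⟩
  obtain ⟨g, a, b⟩ := C.horo.2 p hp
  obtain ⟨w, hw, e⟩ := gi_near (act g p).1
  obtain ⟨A, hA⟩ := exists_lift (X := tl (-w)) (by simp [det, tl])
  have hP : PP (tl (-w)) := by simpa [tl] using pp_mk 0 hw.neg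
  refine ⟨A * g, ⟨A * g, mul_mem ((hP.w3 c).2 A 1 (by rw [sc_one, hA])) a, rfl⟩, ?_⟩
  have e1 : A.1 0 0 = 1 := congrArg M2.a hA
  have e2 : A.1 0 1 = -w := congrArg M2.b hA
  have e3 : A.1 1 0 = 0 := congrArg M2.c hA
  have e4 : A.1 1 1 = 1 := congrArg M2.d hA
  rw [act_mul A g hp]
  generalize act g p = q at *
  refine ⟨?_, by simpa [act, e3, e4] using b⟩
  rw [norm_sub_rev] at e
  have : 1 ≤ 1 / t := (one_le_div t0).2 C.t1
  simpa [act, e1, e2, e3, e4, ← sub_eq_add_neg] using e.trans this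

theorem Cert.orb {c : ℂ} {L : List M2} {K t : ℝ} (C : Cert c L K t) :
    IsOrbifoldGroup (fam4 c⁻¹) :=
  (orb_ext C.c0).2 ⟨nonelem4 C.c0, C.discrete, C.finCov⟩

end Pool.Agent.Lib.MP_743898_gtN
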